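import Pool.Agent.Lib.DI.T.KapV
import Pool.Agent.Lib.FW.G.Kum
import Pool.Agent.Lib.FW.G.Ine
import Pool.Agent.Lib.FW.G.Rm

/-!
# Theorem DI, part T, KAP (H4): the quadratic extension of Hilbert 90

`h` is a quadratic character of `Gal(Om/F)`, `w` is fixed by its kernel and inverted by the other
elements. There is `k` in `F` (`k = β ^ 2 / w` with `τ β = β / w` for `h τ = 1`) whose valuation is
even where `h` is unramified, and at the other primes `Q` (prime to `2`, `w` a unit) it is even if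
`w = 1` modulo `Q` and odd if `w = -1` modulo `Q`; one of the two cases occurs.
-/

set_option autoImplicit false

open scoped Pointwise nonZeroDivisors

noncomputable section

namespace Pool.Agent.DI

open Pool.Agent.MuZ Pool.Agent.FW NumberField IsDedekindDomain

theorem mem_of_fixed {F : IntermediateField ℚ Om} {x : Om}
    (h : ∀ σ ∈ F.fixingSubgroup, σ x = x) : x ∈ F := by
  rw [← InfiniteGalois.fixedField_fixingSubgroup F, IntermediateField.mem_fixedField_iff]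
  intro σ hσ
  exact h σ hσ

theorem fix_mem {F : IntermediateField ℚ Om} {σ : Gal(Om/ℚ)} (h : σ ∈ F.fixingSubgroup)
    (x : F) : σ (x : Om) = x := h x

private theorem coe_zpow' {F : IntermediateField ℚ Om} (x : F) (n : ℤ) :
    ((x ^ n : F) : Om) = (x : Om) ^ n := map_zpow₀ (algebraMap F Om) x n

section local'

variable {F : IntermediateField ℚ Om} [NumberField F] {v : HeightOneSpectrum (𝓞 F)} {Q : Ideal ZZ}

omit [NumberField F] in
private theorem ne_coe {x : F} (h : x ≠ 0) : (x : Om) ≠ 0 := fun h1 => h (Subtype.ext h1)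

/-- If `y ^ 2` is `c u` with `c ∈ F` of valuation `0` and a unit `u` then `y` is a unit. -/
private theorem up_sq (h : Ab F Q v) {y u : Om} {c : F} (hc : c ≠ 0) (hu : UP Q u)
    (hy : y ^ 2 = c * u) (h0 : vl F v c = 0) : UP Q y := by
  have hP : Q.IsPrime := h.1
  refine UP.of_pow (n := 2) (by norm_num) ?_
  rw [hy]
  exact UP.mul ((vl_up h hc).2 h0) hu

/-- The square root of an element of even valuation, normalised. -/
private theorem root_unit (h : Ab F Q v) {δ : Om} {d t : F} (hδ : δ ≠ 0) (hd : (d : Om) = δ ^ 2)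
    (ht0 : t ≠ 0) (ht : vl F v t = 1) {j : ℤ} (hj : vl F v d = j + j) :
    UP Q (δ * (t : Om) ^ (-j)) := by
  have hP : Q.IsPrime := h.1
  have hT : (t : Om) ≠ 0 := ne_coe ht0
  have hd0 : d ≠ 0 := by
    rintro rfl
    exact pow_ne_zero 2 hδ hd.symm
  refine up_sq h (c := d * t ^ (-(j + j))) (u := 1) (mul_ne_zero hd0 (zpow_ne_zero _ ht0))
    UP.one ?_ ?_
  · rw [mul_one, IntermediateField.coe_mul, coe_zpow', hd, mul_pow, neg_add, zpow_add₀ hT]
    ring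
  · rw [vl_mul v _ _ hd0 (zpow_ne_zero _ ht0), vl_zpow v _ ht0, hj, ht]
    ring

private theorem vp_div (h : Ab F Q v) {t : F} (ht0 : t ≠ 0) (ht : vl F v t = 1) {x : F}
    (hx : MP Q (x : Om)) : VP Q ((x : Om) / t) := by
  have hP : Q.IsPrime := h.1
  by_cases h0 : x = 0
  · rw [h0]
    change VP Q (0 / (t : Om))
    rw [zero_div]
    exact VP.zero
  · have h1 : VP Q ((x / t : F) : Om) := by
      rw [vp_vl h (div_ne_zero h0 ht0), vl_div v _ _ h0 ht0, ht]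
      have := (mp_vl h h0).1 hx
      omega
    exact h1

theorem kap_even (h : Ab F Q v) (h2 : ¬ MP Q 2) {w δ β : Om} {d k a b : F} (hδ : δ ≠ 0)
    (hβ : β ≠ 0) (hw : UP Q w) (hd : (d : Om) = δ ^ 2) (hk : (k : Om) * w = β ^ 2)
    (hab : β = a + b * δ) (hab' : β = w * (a - b * δ)) (hev : Even (vl F v d)) :
    Even (vl F v k) := by
  have hP : Q.IsPrime := h.1
  obtain ⟨j, hj⟩ := hev
  obtain ⟨t, ht0, ht⟩ := vl_unif v
  have hT : (t : Om) ≠ 0 := ne_coe ht0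
  have hw0 : w ≠ 0 := hw.ne_zero
  have hk0 : k ≠ 0 := by
    rintro rfl
    apply pow_ne_zero 2 hβ
    rw [← hk]
    exact zero_mul w
  have hδ' := root_unit h hδ hd ht0 ht hj
  set δ' := δ * (t : Om) ^ (-j) with hδ'e
  have hδ'0 : δ' ≠ 0 := hδ'.ne_zero
  by_contra hodd
  obtain ⟨n, hn⟩ := Int.not_even_iff_odd.1 hodd
  set β1 := β * (t : Om) ^ (-n) with hβ1
  have hVP2 : VP Q (2 : Om) := by
    have := VP.nat (P := Q) 2
    simpa using this
  have hU2 : UP Q (2 : Om) := ⟨hVP2, h2⟩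
  -- `β1` is in the maximal ideal
  have hsq : β1 ^ 2 = ((k * t ^ (-(n + n)) : F) : Om) * w := by
    rw [IntermediateField.coe_mul, coe_zpow', mul_right_comm, hk, hβ1, mul_pow, neg_add,
      zpow_add₀ hT]
    ring
  have hm : MP Q β1 := by
    refine MP.of_pow (n := 2) ?_
    rw [hsq]
    refine MP.mul_right ?_ hw.1
    refine vl_mp h (mul_ne_zero hk0 (zpow_ne_zero _ ht0)) ?_
    rw [vl_mul v _ _ hk0 (zpow_ne_zero _ ht0), vl_zpow v _ ht0, hn, ht]
    omega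
  have hm' : MP Q (β1 * w⁻¹) := MP.mul_right hm hw.inv.1
  -- the coefficients
  have e1 : ((a * t ^ (-n) : F) : Om) = (β1 + β1 * w⁻¹) * 2⁻¹ := by
    rw [IntermediateField.coe_mul, coe_zpow', hβ1]
    have h3 : β * w⁻¹ = a - b * δ := by
      rw [hab']
      field_simp
    have h4 : (a : Om) = (β + β * w⁻¹) * 2⁻¹ := by
      rw [h3, hab]
      ring
    rw [h4]
    ring
  have e2 : ((b * t ^ (j - n) : F) : Om) = (β1 - β1 * w⁻¹) * 2⁻¹ * δ'⁻¹ := by
    rw [IntermediateField.coe_mul, coe_zpow', hβ1]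
    have h3 : β * w⁻¹ = a - b * δ := by
      rw [hab']
      field_simp
    have h4 : (b : Om) * δ = (β - β * w⁻¹) * 2⁻¹ := by
      rw [h3, hab]
      ring
    rw [eq_mul_inv_iff_mul_eq₀ hδ'0, hδ'e]
    have h5 : (t : Om) ^ (j - n) * (t : Om) ^ (-j) = (t : Om) ^ (-n) := by
      rw [← zpow_add₀ hT]
      congr 1
      ring
    calc (b : Om) * (t : Om) ^ (j - n) * (δ * (t : Om) ^ (-j))
        = (b * δ) * ((t : Om) ^ (j - n) * (t : Om) ^ (-j)) := by ring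
      _ = (β * (t : Om) ^ (-n) - β * (t : Om) ^ (-n) * w⁻¹) * 2⁻¹ := by
          rw [h5, h4]
          ring
  have m1 : MP Q ((a * t ^ (-n) : F) : Om) := by
    rw [e1]
    exact MP.mul_right (hm.add hm') hU2.inv.1
  have m2 : MP Q ((b * t ^ (j - n) : F) : Om) := by
    rw [e2]
    exact MP.mul_right (MP.mul_right (hm.sub hm') hU2.inv.1) hδ'.inv.1
  have v1 := vp_div h ht0 ht m1
  have v2 := vp_div h ht0 ht m2
  have v3 : VP Q (β1 / t) := by
    have e3 : β1 / (t : Om) = ((a * t ^ (-n) : F) : Om) / t +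
        ((b * t ^ (j - n) : F) : Om) / t * δ' := by
      rw [e1, e2]
      field_simp
      ring
    rw [e3]
    exact v1.add (v2.mul hδ'.1)
  have v4 : VP Q ((k * t ^ (-(n + 1 + (n + 1))) : F) : Om) := by
    have e4 : ((k * t ^ (-(n + 1 + (n + 1))) : F) : Om) = (β1 / t) ^ 2 * w⁻¹ := by
      rw [eq_mul_inv_iff_mul_eq₀ hw0, IntermediateField.coe_mul, coe_zpow', mul_right_comm, hk, hβ1]
      have h5 : (t : Om) ^ (-(n + 1 + (n + 1))) = ((t : Om) ^ (-n) / t) ^ 2 := by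
        rw [show -(n + 1 + (n + 1)) = (-n - 1) + (-n - 1) by ring, zpow_add₀ hT,
          zpow_sub_one₀ hT]
        ring
      rw [h5]
      ring
    rw [e4]
    exact (v3.pow 2).mul hw.inv.1
  rw [vp_vl h (mul_ne_zero hk0 (zpow_ne_zero _ ht0)), vl_mul v _ _ hk0 (zpow_ne_zero _ ht0),
    vl_zpow v _ ht0, hn, ht] at v4
  omega

theorem kap_ram (h : Ab F Q v) (h2 : ¬ MP Q 2) {w δ β : Om} {d k : F} (hδ : δ ≠ 0)
    (hβ : β ≠ 0) (hw : UP Q w) (hd : (d : Om) = δ ^ 2) (hk : (k : Om) * w = β ^ 2)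
    {s : Gal(Om/ℚ)} (hs : s ∈ Q.inertia Gal(Om/ℚ)) (hsF : s ∈ F.fixingSubgroup)
    (hsδ : s δ = -δ) (hsβ : s β * w = β) :
    (Even (vl F v k) ∧ MP Q (w - 1)) ∨ (Odd (vl F v k) ∧ MP Q (w + 1)) := by
  have hP : Q.IsPrime := h.1
  obtain ⟨t, ht0, ht⟩ := vl_unif v
  have hT : (t : Om) ≠ 0 := ne_coe ht0
  have hsT : ∀ n : ℤ, s ((t : Om) ^ n) = (t : Om) ^ n := fun n => by
    rw [map_zpow₀, fix_mem hsF]
  have hw0 : w ≠ 0 := hw.ne_zero
  have hk0 : k ≠ 0 := by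
    rintro rfl
    apply pow_ne_zero 2 hβ
    rw [← hk]
    exact zero_mul w
  have hd0 : d ≠ 0 := by
    rintro rfl
    exact pow_ne_zero 2 hδ hd.symm
  rcases Int.even_or_odd (vl F v k) with hev | hodd
  · refine Or.inl ⟨hev, ?_⟩
    obtain ⟨n, hn⟩ := hev
    have hU : UP Q (β * (t : Om) ^ (-n)) := by
      refine up_sq h (c := k * t ^ (-(n + n))) (u := w) (mul_ne_zero hk0 (zpow_ne_zero _ ht0))
        hw ?_ ?_
      · rw [IntermediateField.coe_mul, coe_zpow', mul_right_comm, hk, mul_pow, neg_add,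
          zpow_add₀ hT]
        ring
      · rw [vl_mul v _ _ hk0 (zpow_ne_zero _ ht0), vl_zpow v _ ht0, hn, ht]
        ring
    have hm := VP.inertia hs hU.1
    have hU0 := hU.ne_zero
    have e1 : w - 1 = (s (β * (t : Om) ^ (-n)) - β * (t : Om) ^ (-n)) *
        (-(w * (β * (t : Om) ^ (-n))⁻¹)) := by
      rw [map_mul, hsT]
      have h3 : (s β * (t : Om) ^ (-n) - β * (t : Om) ^ (-n)) * w =
          -((w - 1) * (β * (t : Om) ^ (-n))) := by
        linear_combination ((t : Om) ^ (-n)) * hsβ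
      rw [mul_neg, ← mul_assoc, h3, neg_mul, neg_neg, mul_inv_cancel_right₀ hU0]
    rw [e1]
    exact MP.mul_right hm (hw.mul hU.inv).neg.1
  · refine Or.inr ⟨hodd, ?_⟩
    obtain ⟨n, hn⟩ := hodd
    have hdo : Odd (vl F v d) := by
      by_contra hne
      obtain ⟨j, hj⟩ := Int.not_odd_iff_even.1 hne
      have hU := root_unit h hδ hd ht0 ht hj
      have hm := VP.inertia hs hU.1
      have hU0 := hU.ne_zero
      apply h2
      have e1 : (2 : Om) = (s (δ * (t : Om) ^ (-j)) - δ * (t : Om) ^ (-j)) *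
          (-(δ * (t : Om) ^ (-j))⁻¹) := by
        rw [map_mul, hsT, hsδ]
        have h3 : -δ * (t : Om) ^ (-j) - δ * (t : Om) ^ (-j) = -(2 * (δ * (t : Om) ^ (-j))) := by
          ring
        rw [h3, mul_neg, neg_mul, neg_neg, mul_inv_cancel_right₀ hU0]
      rw [e1]
      exact MP.mul_right hm hU.inv.neg.1
    obtain ⟨j, hj⟩ := hdo
    have hU : UP Q (β * (t : Om) ^ (j - n) * δ⁻¹) := by
      refine up_sq h (c := k * d⁻¹ * t ^ ((j - n) + (j - n))) (u := w)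
        (mul_ne_zero (mul_ne_zero hk0 (inv_ne_zero hd0)) (zpow_ne_zero _ ht0)) hw ?_ ?_
      · have hdi : ((d⁻¹ : F) : Om) = (δ ^ 2)⁻¹ := by
          rw [← hd]
          rfl
        rw [IntermediateField.coe_mul, IntermediateField.coe_mul, coe_zpow', hdi,
          zpow_add₀ hT]
        calc (β * (t : Om) ^ (j - n) * δ⁻¹) ^ 2
            = β ^ 2 * ((t : Om) ^ (j - n) * (t : Om) ^ (j - n)) * (δ ^ 2)⁻¹ := by
              rw [mul_pow, mul_pow, inv_pow]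
              ring
          _ = _ := by
              rw [← hk]
              ring
      · rw [vl_mul v _ _ (mul_ne_zero hk0 (inv_ne_zero hd0)) (zpow_ne_zero _ ht0),
          vl_mul v _ _ hk0 (inv_ne_zero hd0), vl_inv v _ hd0, vl_zpow v _ ht0, hn, hj, ht]
        ring
    have hm := VP.inertia hs hU.1
    have hU0 := hU.ne_zero
    have e1 : w + 1 = (s (β * (t : Om) ^ (j - n) * δ⁻¹) - β * (t : Om) ^ (j - n) * δ⁻¹) *
        (-(w * (β * (t : Om) ^ (j - n) * δ⁻¹)⁻¹)) := by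
      rw [map_mul, map_mul, hsT, map_inv₀, hsδ]
      have h3 : (s β * (t : Om) ^ (j - n) * (-δ)⁻¹ - β * (t : Om) ^ (j - n) * δ⁻¹) * w =
          -((w + 1) * (β * (t : Om) ^ (j - n) * δ⁻¹)) := by
        rw [inv_neg]
        linear_combination (-(t : Om) ^ (j - n) * δ⁻¹) * hsβ
      rw [mul_neg, ← mul_assoc, h3, neg_mul, neg_neg, mul_inv_cancel_right₀ hU0]
    rw [e1]
    exact MP.mul_right hm (hw.mul hU.inv).neg.1

end local'

private theorem zm2 : ∀ x : ZMod 2, x = 0 ∨ x = 1 := by decide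

/-- **KAP** (H4). -/
theorem kap_ex (F : IntermediateField ℚ Om) [NumberField F] {h : Gal(Om/ℚ) → ZMod 2}
    (hh : h ∈ VV 2 ∅ F.fixingSubgroup) {w : Om} (hw : w ≠ 0)
    (h0 : ∀ τ ∈ F.fixingSubgroup, h τ = 0 → τ w = w)
    (h1 : ∀ τ ∈ F.fixingSubgroup, h τ = 1 → τ w * w = 1) :
    ∃ k : F, k ≠ 0 ∧ ∀ (v : HeightOneSpectrum (𝓞 F)) (Q : Ideal ZZ), Ab F Q v → (2 : ZZ) ∉ Q →
      UP Q w →
      ((∀ τ ∈ Q.inertia Gal(Om/ℚ), τ ∈ F.fixingSubgroup → h τ = 0) → Even (vl F v k)) ∧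
      ((∃ τ ∈ Q.inertia Gal(Om/ℚ), τ ∈ F.fixingSubgroup ∧ h τ = 1) →
        (Even (vl F v k) ∧ MP Q (w - 1)) ∨ (Odd (vl F v k) ∧ MP Q (w + 1))) := by
  classical
  have hF2 : Fact (Nat.Prime 2) := ⟨Nat.prime_two⟩
  have hζ : IsPrimitiveRoot (-1 : Om) 2 := IsPrimitiveRoot.neg_one 0 (by norm_num)
  obtain ⟨δ, hδ, hδ'⟩ := tKum 2 F.fixingSubgroup (-1) hζ (fun σ _ => by rw [map_neg, map_one])
    h hh
  have two := zm2
  have d0 : ∀ τ ∈ F.fixingSubgroup, h τ = 0 → τ δ = δ := fun τ hτ h3 => by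
    rw [hδ' τ hτ, h3, ZMod.val_zero, pow_zero, one_mul]
  have d1 : ∀ τ ∈ F.fixingSubgroup, h τ = 1 → τ δ = -δ := fun τ hτ h3 => by
    rw [hδ' τ hτ, h3, show (1 : ZMod 2).val = 1 from rfl, pow_one, neg_one_mul]
  have hdF : δ ^ 2 ∈ F := mem_of_fixed fun τ hτ => by
    rcases two (h τ) with h3 | h3
    · rw [map_pow, d0 τ hτ h3]
    · rw [map_pow, d1 τ hτ h3, neg_sq]
  -- `β`
  obtain ⟨β, hβ, b0, b1⟩ : ∃ β : Om, β ≠ 0 ∧ (∀ τ ∈ F.fixingSubgroup, h τ = 0 → τ β = β) ∧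
      ∀ τ ∈ F.fixingSubgroup, h τ = 1 → τ β * w = β := by
    by_cases hw1 : w = -1
    · refine ⟨δ, hδ, d0, fun τ hτ h3 => ?_⟩
      rw [d1 τ hτ h3, hw1]
      ring
    · refine ⟨1 + w, fun h3 => hw1 (by linear_combination h3), fun τ hτ h3 => ?_,
        fun τ hτ h3 => ?_⟩
      · rw [map_add, map_one, h0 τ hτ h3]
      · rw [map_add, map_one, add_mul, one_mul, h1 τ hτ h3, add_comm]
  have b1' : ∀ τ ∈ F.fixingSubgroup, h τ = 1 → τ β = β * w⁻¹ := fun τ hτ h3 => by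
    rw [eq_mul_inv_iff_mul_eq₀ hw]
    exact b1 τ hτ h3
  have w1 : ∀ τ ∈ F.fixingSubgroup, h τ = 1 → τ w = w⁻¹ := fun τ hτ h3 =>
    eq_inv_of_mul_eq_one_left (h1 τ hτ h3)
  have hkF : β ^ 2 * w⁻¹ ∈ F := mem_of_fixed fun τ hτ => by
    rcases two (h τ) with h3 | h3
    · rw [map_mul, map_pow, map_inv₀, b0 τ hτ h3, h0 τ hτ h3]
    · rw [map_mul, map_pow, map_inv₀, b1' τ hτ h3, w1 τ hτ h3, inv_inv]
      field_simp
  have haF : (β + β * w⁻¹) * 2⁻¹ ∈ F := mem_of_fixed fun τ hτ => by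
    rcases two (h τ) with h3 | h3
    · rw [map_mul, map_add, map_mul, map_inv₀, map_inv₀, b0 τ hτ h3, h0 τ hτ h3, map_ofNat]
    · rw [map_mul, map_add, map_mul, map_inv₀, map_inv₀, b1' τ hτ h3, w1 τ hτ h3, map_ofNat,
        inv_inv, inv_mul_cancel_right₀ hw]
      ring
  have hbF : (β - β * w⁻¹) * 2⁻¹ * δ⁻¹ ∈ F := mem_of_fixed fun τ hτ => by
    rcases two (h τ) with h3 | h3
    · rw [map_mul, map_mul, map_sub, map_mul, map_inv₀, map_inv₀, map_inv₀, b0 τ hτ h3,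
        h0 τ hτ h3, map_ofNat, d0 τ hτ h3]
    · rw [map_mul, map_mul, map_sub, map_mul, map_inv₀, map_inv₀, map_inv₀, b1' τ hτ h3,
        w1 τ hτ h3, map_ofNat, inv_inv, inv_mul_cancel_right₀ hw, d1 τ hτ h3, inv_neg]
      ring
  have hk0 : (⟨β ^ 2 * w⁻¹, hkF⟩ : F) ≠ 0 := fun h3 =>
    mul_ne_zero (pow_ne_zero 2 hβ) (inv_ne_zero hw) (congrArg Subtype.val h3)
  refine ⟨⟨β ^ 2 * w⁻¹, hkF⟩, hk0, fun v Q hv h2 hwu => ?_⟩
  have hP : Q.IsPrime := hv.1
  have hm2 : ¬ MP Q 2 := by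
    intro h3
    have h4 := (MP.nat_iff (P := Q) 2).1 (by simpa using h3)
    exact h2 (by simpa using h4)
  have hk : (((⟨β ^ 2 * w⁻¹, hkF⟩ : F)) : Om) * w = β ^ 2 := by
    change β ^ 2 * w⁻¹ * w = β ^ 2
    rw [inv_mul_cancel_right₀ hw]
  constructor
  · intro hun
    refine kap_even hv hm2 (d := ⟨δ ^ 2, hdF⟩) (a := ⟨_, haF⟩) (b := ⟨_, hbF⟩) hδ hβ hwu rfl hk
      ?_ ?_ ?_
    · change β = (β + β * w⁻¹) * 2⁻¹ + (β - β * w⁻¹) * 2⁻¹ * δ⁻¹ * δ
      rw [inv_mul_cancel_right₀ hδ]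
      ring
    · change β = w * ((β + β * w⁻¹) * 2⁻¹ - (β - β * w⁻¹) * 2⁻¹ * δ⁻¹ * δ)
      rw [inv_mul_cancel_right₀ hδ]
      field_simp
      ring
    · have h3 := tRm tIne 2 F (-1) δ hζ (by
        exact neg_mem (one_mem F)) hδ (⟨δ ^ 2, hdF⟩ : F) rfl Q hv.1 h2
        (fun σ hσ hσF => d0 σ hσF (hun σ hσ hσF)) v hv.2.2
      rw [Nat.cast_ofNat] at h3
      exact even_iff_two_dvd.2 h3
  · rintro ⟨s, hs, hsF, hs1⟩
    exact kap_ram hv hm2 (d := ⟨δ ^ 2, hdF⟩) hδ hβ hwu rfl hk hs hsF (d1 s hsF hs1) (b1 s hsF hs1)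

end Pool.Agent.DI
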