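import Pool.Agent.Lib.MuZ.Tot
import Pool.Agent.Lib.FW.G.Ine
import Pool.Agent.Lib.FW.D.Lift

/-!
# Theorem DI, part T: inertia at `p` is as large as possible on the `p`-power roots of unity
-/

set_option autoImplicit false

open scoped Pointwise

noncomputable section

namespace Pool.Agent.DI

open Pool.Agent.MuZ Pool.Agent.FW

/-- The inertia group at `P ∣ p` acts on the roots of unity of order `p ^ n` through all of
`(ℤ/p ^ n)ˣ`. -/
theorem in_cyc (p : ℕ) (hp : p.Prime) (P : Ideal ZZ) (hP : P.IsPrime) (hpP : (p : ZZ) ∈ P)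
    (n a : ℕ) (ha : a.Coprime (p ^ n)) :
    ∃ ρ ∈ P.inertia Gal(Om/ℚ), ∀ z : Om, z ^ p ^ n = 1 → ρ z = z ^ a := by
  have hfact : Fact p.Prime := ⟨hp⟩
  have hpos : 0 < p ^ n := pow_pos hp.pos n
  have hne : NeZero (p ^ n) := ⟨hpos.ne'⟩
  obtain ⟨z, hz⟩ := HasEnoughRootsOfUnity.exists_primitiveRoot Om (p ^ n)
  obtain ⟨s, hs⟩ := LiftAux.exists_m (p ^ n) hpos a ha
  have hzi : IsIntegral ℤ z := hz.isIntegral hpos
  have hzQ : IsIntegral ℚ z := hzi.tower_top
  let K : IntermediateField ℚ Om := IntermediateField.adjoin ℚ {z}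
  have hzK : z ∈ K := IntermediateField.mem_adjoin_simple_self ℚ z
  have hfin : FiniteDimensional ℚ K := IntermediateField.adjoin.finiteDimensional hzQ
  let ζ : ZZ := ⟨z, hzi⟩
  have hζ : ζ ^ p ^ n = 1 := Subtype.ext hz.pow_eq_one
  have hsz : s z = z ^ a := hs z hz.pow_eq_one
  have hP0 : P ≠ ⊥ := by
    rintro rfl
    have h1 : (p : ZZ) = 0 := hpP
    exact hp.ne_zero (Nat.cast_injective (R := ZZ) (by rw [h1, Nat.cast_zero]))
  have hsK : ∀ x ∈ K, s x ∈ K := by
    have h1 : K ≤ IntermediateField.comap (s : Om →ₐ[ℚ] Om) K := by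
      refine IntermediateField.adjoin_le_iff.2 ?_
      rintro y rfl
      change s y ∈ K
      rw [hsz]
      exact pow_mem hzK a
    exact fun x hx => h1 hx
  have hsP : ∀ y : ZZ, (y : Om) ∈ K → s • y - y ∈ P := by
    intro y hy
    obtain ⟨f, hf⟩ := tot_gen p n z hz (y : Om) hy y.2
    have hfy : Polynomial.aeval ζ f = y := by
      apply Subtype.ext
      rw [← hf]
      exact (Polynomial.aeval_algebraMap_apply Om ζ f).symm
    have hsζ : s • ζ = ζ ^ a := Subtype.ext hsz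
    have h1 : s • y = Polynomial.aeval (ζ ^ a) f := by
      rw [← hfy, ← hsζ]
      have h2 := Polynomial.hom_eval₂ f (algebraMap ℤ ZZ)
        (MulSemiringAction.toRingHom Gal(Om/ℚ) ZZ s) ζ
      rw [RingHom.ext_int ((MulSemiringAction.toRingHom Gal(Om/ℚ) ZZ s).comp (algebraMap ℤ ZZ))
        (algebraMap ℤ ZZ)] at h2
      exact h2
    rw [h1, ← hfy]
    have h2 : ζ ^ a - ζ ∈ P := by
      have h3 := tot_one p n hp P hP hpP ζ hζ
      have h4 := tot_one p n hp P hP hpP (ζ ^ a) (by rw [← pow_mul, mul_comm, pow_mul, hζ, one_pow])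
      have := P.sub_mem h4 h3
      rwa [sub_sub_sub_cancel_right] at this
    have h3 := Polynomial.sub_dvd_eval_sub (ζ ^ a) ζ (f.map (Int.castRingHom ZZ))
    have h4 : ∀ x : ZZ, (f.map (Int.castRingHom ZZ)).eval x = Polynomial.aeval x f := fun x => by
      rw [Polynomial.eval_map, Polynomial.aeval_def]
      rfl
    rw [h4, h4] at h3
    exact P.mem_of_dvd h3 h2
  obtain ⟨ρ, hρ, -, hρK⟩ := tIne ⊥ K hfin bot_le P hP hP0 s
    (by rw [IntermediateField.fixingSubgroup_bot]; exact Subgroup.mem_top s) hsK hsP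
  refine ⟨ρ, hρ, fun w hw => ?_⟩
  obtain ⟨i, -, hi⟩ := hz.eq_pow_of_pow_eq_one hw
  rw [hρK w (by rw [← hi]; exact pow_mem hzK i), hs w hw]

end Pool.Agent.DI
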