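import Pool.Agent.Lib.DI.T.SpecT
import Pool.Agent.Lib.DI.T.In2
import Pool.Agent.Lib.DI.Val
import Pool.Agent.Lib.DI.Iface
import Pool.Agent.Lib.DI.Util.Spec

/-!
# Theorem DI, part T: the assembly of Theorem H

`S_H` of the interface from the abstract form `S_TH`, the construction `S_KK` (H3, H4) and the
statements of parts E and G.
-/

set_option autoImplicit false

open scoped Pointwise nonZeroDivisors

noncomputable section

namespace Pool.Agent.DI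

open Pool.Agent.MuZ Pool.Agent.FW NumberField IsDedekindDomain

/-- A field which contains `w` is totally complex. -/
theorem tc_of_wO (F : IntermediateField ℚ Om) [NumberField F] (h : wO ∈ F) :
    IsTotallyComplex F := by
  refine ⟨fun v => ?_⟩
  rw [← InfinitePlace.not_isReal_iff_isComplex]
  intro hv
  have h1 : ComplexEmbedding.IsReal v.embedding := InfinitePlace.isReal_iff.1 hv
  have h2 := h1.coe_embedding_apply (⟨wO, h⟩ : F)
  set t : ℝ := h1.embedding (⟨wO, h⟩ : F) with ht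
  have h3 : (⟨wO, h⟩ : F) ^ 2 = (⟨wO, h⟩ : F) - 2 := Subtype.ext wO_sq
  have h4 : t ^ 2 = t - 2 := by
    rw [ht, ← map_pow, h3, map_sub, map_ofNat]
  nlinarith [sq_nonneg (t - 1 / 2)]

/-- An automorphism which maps a nonzero prime into itself is in the decomposition group. -/
theorem stab_of_le {P : Ideal ZZ} (hP : Npr P) {d : Gal(Om/ℚ)} (h : ∀ x : ZZ, x ∈ P → d • x ∈ P) :
    d ∈ MulAction.stabilizer Gal(Om/ℚ) P := by
  rw [MulAction.mem_stabilizer_iff]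
  have h0 : d • P ≠ ⊥ := by
    intro h0
    apply hP.2
    have h1 : d⁻¹ • (d • P) = d⁻¹ • (⊥ : Ideal ZZ) := by rw [h0]
    rw [inv_smul_smul] at h1
    rw [h1]
    exact Ideal.smul_bot d⁻¹
  have h1 : (d • P).IsMaximal := (hP.1.smul d).isMaximal h0
  refine h1.eq_of_le hP.1.ne_top fun x hx => ?_
  rw [Ideal.mem_pointwise_smul_iff_inv_smul_mem] at hx
  have h2 := h _ hx
  rwa [smul_inv_smul] at h2

theorem npr_smul {P : Ideal ZZ} (hP : Npr P) (d : Gal(Om/ℚ)) : Npr (d • P) := by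
  refine ⟨hP.1.smul d, fun h0 => hP.2 ?_⟩
  have h1 : d⁻¹ • (d • P) = d⁻¹ • (⊥ : Ideal ZZ) := by rw [h0]
  rw [inv_smul_smul] at h1
  rw [h1]
  exact Ideal.smul_bot d⁻¹

theorem two_mem_iff {P : Ideal ZZ} (hP : P.IsPrime) : MP P 2 ↔ (2 : ZZ) ∈ P := by
  have h := MP.nat_iff (P := P) 2
  simpa using h

theorem psi_down {τ : Gal(Om/ℚ)} {f M : ℕ} {a : OO} (hM : 0 < M) (h : Psi τ (f * M) a) :
    Psi τ f a := by
  have hMC : (M : ℂ) ≠ 0 := by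
    rw [Nat.cast_ne_zero]
    exact hM.ne'
  have e : ∀ v : OO, toC v / (f : ℂ) = toC ((M : OO) * v) / ((f * M : ℕ) : ℂ) := by
    intro v
    rw [map_mul, map_natCast, Nat.cast_mul, mul_comm (f : ℂ), mul_div_mul_left _ _ hMC]
  refine ⟨?_, fun v => ?_⟩
  · have h1 : IsCoprime (Nm a) ((f * M : ℕ) : ℤ) := h.1
    rw [Nat.cast_mul] at h1
    exact h1.of_mul_right_left
  · have h1 := h.2 ((M : OO) * v)
    rw [← e, mul_left_comm, ← e] at h1
    exact h1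

/-- An element of the inertia group at `2` which fixes `L_n` and maps `i` to `-i`. -/
theorem rho_i (hE1 : S_E1) (hE4 : S_E4) (hE6 : S_E6) (hE8 : S_E8) (hUHN : S_UHN) (hUNm : S_UNm)
    {f N : ℕ} (hf : Odd f) (h7 : 7 ∣ f) (hN : 2 ≤ N) {P : Ideal ZZ} (hP : Npr P)
    (h2 : MP P 2) :
    ∃ ρ ∈ P.inertia Gal(Om/ℚ), ρ ∈ (Ln f N).fixingSubgroup ∧ ∀ i : Om, i ^ 2 = -1 → ρ i ≠ i := by
  have hPp : P.IsPrime := hP.1
  have hf0 : 0 < f := hf.pos
  have h1lt : 1 < 2 ^ N := Nat.one_lt_two_pow (by omega)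
  have hcop : (2 ^ N - 1).Coprime (2 ^ N) := by
    have h3 := Nat.coprime_self_sub_left (n := 2 ^ N) (m := 1) h1lt.le
    rw [h3]
    exact Nat.coprime_one_left _
  obtain ⟨ρ, hρ, hρz⟩ := in_cyc 2 Nat.prime_two P hP.1 (by simpa using (two_mem_iff hP.1).1 h2)
    N (2 ^ N - 1) hcop
  -- `ρ` fixes `K`
  have hw : ρ wO = wO := by
    have h3 : (ρ wO) ^ 2 = ρ wO - 2 := by
      rw [← map_pow, wO_sq, map_sub, map_ofNat]
    have h4 : (ρ wO - wO) * (ρ wO + wO - 1) = 0 := by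
      linear_combination h3 - wO_sq
    rcases mul_eq_zero.1 h4 with h5 | h5
    · exact sub_eq_zero.1 h5
    · exfalso
      have hwi : IsIntegral ℤ wO := by
        refine ⟨Polynomial.X ^ 2 - Polynomial.X + Polynomial.C 2, ?_, ?_⟩
        · monicity!
        · simp only [Polynomial.eval₂_add, Polynomial.eval₂_sub, Polynomial.eval₂_pow,
            Polynomial.eval₂_X, Polynomial.eval₂_C, wO_sq]
          simp
      have h6 := VP.inertia hρ (VP.integral (P := P) hwi)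
      have h7' : ρ wO - wO = 1 - 2 * wO := by linear_combination h5
      rw [h7'] at h6
      have h8 : MP P ((1 - 2 * wO) * (1 - 2 * wO)) := MP.mul_left h6.vp h6
      have h9 : (1 - 2 * wO) * (1 - 2 * wO) = -7 := by
        linear_combination 4 * wO_sq
      rw [h9] at h8
      have h10 : MP P (2 * 4) := MP.mul_right h2 (by simpa using VP.nat (P := P) 4)
      have h11 := h10.add h8
      norm_num at h11
      exact MP.one_not h11
  have hGK : ρ ∈ GK := by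
    have h3 : KQ ≤ (IntermediateField.fixedField (Subgroup.zpowers ρ)) := by
      refine IntermediateField.adjoin_le_iff.2 ?_
      rintro y rfl
      rintro ⟨g, hg⟩
      obtain ⟨k, rfl⟩ := Subgroup.mem_zpowers_iff.1 hg
      have h4 : ρ ∈ MulAction.stabilizer Gal(Om/ℚ) wO := hw
      exact (MulAction.stabilizer Gal(Om/ℚ) wO).zpow_mem h4 k
    rintro ⟨x, hx⟩
    exact h3 hx ⟨ρ, Subgroup.mem_zpowers ρ⟩
  obtain ⟨a, ha⟩ := hE1.1 ρ hGK (f * 2 ^ N) (Nat.mul_pos hf0 (by positivity))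
  have haf : Psi ρ f a := psi_down (by positivity) ha
  have hfP : ¬ MP P (f : Om) := by
    intro h3
    obtain ⟨m, hm⟩ := hf
    have h4 : MP P (2 * (m : Om)) := MP.mul_right h2 (VP.nat m)
    have h5 := h3.sub h4
    have h6 : (f : Om) - 2 * m = 1 := by
      rw [hm]
      push_cast
      ring
    rw [h6] at h5
    exact MP.one_not h5
  have hsq : (f : OO) ∣ a ^ 2 ^ 1 - 1 := by
    rw [pow_one]
    have e : a ^ 2 - 1 = (a - 1) * (a + 1) := by ring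
    rw [e]
    rcases (hE4 P hP ρ hGK hρ).2 f hf0 hfP with h3 | h3
    · exact Dvd.dvd.mul_right (hE1.2 ρ f a 1 hf0 haf h3) _
    · have h4 := hE1.2 ρ f a (-1) hf0 haf h3
      rw [sub_neg_eq_add] at h4
      exact Dvd.dvd.mul_left h4 _
  have hne : NeZero (2 ^ N) := ⟨by positivity⟩
  obtain ⟨ζ, hζ⟩ := HasEnoughRootsOfUnity.exists_primitiveRoot Om (2 ^ N)
  have hnorm : (2 : ℤ) ^ N ∣ Nm a + 1 := by
    have h3 := hE6 ρ hGK (f * 2 ^ N) a (Nat.mul_pos hf0 (by positivity)) ha ζ (by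
      rw [mul_comm, pow_mul, hζ.pow_eq_one, one_pow])
    rw [hρz ζ hζ.pow_eq_one] at h3
    have h4 : ζ ^ ((Nm a).toNat + 1) = 1 := by
      rw [pow_succ, ← h3, ← pow_succ, Nat.sub_add_cancel h1lt.le, hζ.pow_eq_one]
    have h5 := hζ.dvd_of_pow_eq_one _ h4
    have h6 : ((2 ^ N : ℕ) : ℤ) ∣ (((Nm a).toNat + 1 : ℕ) : ℤ) := Int.natCast_dvd_natCast.2 h5
    push_cast at h6
    rw [Int.toNat_of_nonneg (hUNm.2.1 a)] at h6
    exact h6
  have hHN : HN f N a := ⟨⟨haf.1, 1, hsq⟩, Or.inr hnorm⟩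
  obtain ⟨⟨-, hm1, -, -⟩, -, hmul, -, hper, -, hcopN, -⟩ := hUHN f N hf h7
  obtain ⟨-, -, hfix⟩ := hE8 (f * 2 ^ N) (HN f N) (Nat.mul_pos hf0 (by positivity)) hm1 hcopN
    hper hmul
  refine ⟨ρ, hρ, ?_, fun i hi hρi => ?_⟩
  · rintro ⟨x, hx⟩
    exact (hfix ρ hGK a ha).2 hHN x hx
  · have h4 : i ^ 4 = 1 := by
      have : i ^ 4 = (i ^ 2) ^ 2 := by ring
      rw [this, hi]
      norm_num
    have h5 : i ^ 2 ^ N = 1 := by
      obtain ⟨m, rfl⟩ : ∃ m, N = m + 2 := ⟨N - 2, by omega⟩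
      rw [pow_add, mul_comm, pow_mul, show (2 : ℕ) ^ 2 = 4 by norm_num, h4, one_pow]
    have h6 : ρ i * i = 1 := by
      rw [hρz i h5, ← pow_succ, Nat.sub_add_cancel h1lt.le, h5]
    rw [hρi] at h6
    have h7' : (-1 : Om) = 1 := by
      rw [← hi, sq]
      exact h6
    norm_num at h7'

/-- The element `k` of `S_KK` is an element `k` of the abstract form. -/
theorem thn_of_kk (hKK : S_KK) {f : ℕ} {μ : OO} {S : Finset ℂ} {N : ℕ} {T : Finset OO}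
    (hf : Odd f) (h7 : 7 ∣ f) (hμ : Cop μ (2 * f)) (hS : IsHalf μ S) (hN : 2 ≤ N)
    (hT : IsRep f N T) {v : OO} (hv : Cop v (2 * f)) [NumberField (Ln f N)]
    (hnorm : ∀ τ : Gal(Om/ℚ), ∀ x ∈ Ln f N, τ x ∈ Ln f N)
    {Sg : Finset Gal(Om/ℚ)} (hSgK : ∀ s ∈ Sg, s ∈ GK)
    (hSgex : ∀ τ ∈ GK, ∃ s ∈ Sg, s⁻¹ * τ ∈ (Ln f N).fixingSubgroup) :
    Thn (Ln f N) Sg (uN f N μ S T v) (2 * (7 * f * (Nm μ).toNat)) := by
  intro Q φ hQp hQ0 hMQ hprime h4 hφ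
  have hlQ : ((Nat.card (𝓞 (Ln f N) ⧸ Q.comap (iO (Ln f N))) : ℕ) : ZZ) ∈ Q := by
    have h1 : ((Nat.card (𝓞 (Ln f N) ⧸ Q.comap (iO (Ln f N))) : ℕ) : 𝓞 (Ln f N)) ∈
        Q.comap (iO (Ln f N)) := by
      rw [← Ideal.Quotient.eq_zero_iff_mem, map_natCast, ← nsmul_one]
      exact card_nsmul_eq_zero'
    rw [Ideal.mem_comap, map_natCast] at h1
    exact h1
  have hco : (Nat.card (𝓞 (Ln f N) ⧸ Q.comap (iO (Ln f N)))).Coprime (7 * f * (Nm μ).toNat) := by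
    rw [hprime.coprime_iff_not_dvd]
    rintro ⟨k, hk⟩
    apply hMQ
    rw [hk]
    push_cast
    rw [mul_left_comm]
    exact Q.mul_mem_right _ hlQ
  obtain ⟨k, hk0, hkev, hkod⟩ := hKK f μ S N T hf h7 hμ hS hN hT v hv _ hprime h4 hco Q ⟨hQp, hQ0⟩
    hlQ rfl φ hφ
  refine ⟨k, hk0, fun v' Q' hQ' h2' hdis => ?_, fun v' s hs hsv => hkod s (hSgK s hs) v' hsv.2.2⟩
  rw [even_iff_two_dvd]
  refine hkev v' Q' hQ' (fun h3 => h2' ((two_mem_iff hQ'.1).1 h3)) ?_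
  rintro ⟨s, hs, hsQ⟩
  obtain ⟨σ, hσ, hρ⟩ := hSgex s hs
  refine hdis σ hσ ⟨hQp.smul σ, (npr_smul ⟨hQp, hQ0⟩ σ).2, ?_⟩
  rw [hQ'.2.2, hsQ]
  ext x
  rw [Ideal.mem_comap, Ideal.mem_comap, Ideal.mem_pointwise_smul_iff_inv_smul_mem,
    Ideal.mem_pointwise_smul_iff_inv_smul_mem]
  have h5 : s⁻¹ • iO (Ln f N) x = σ⁻¹ • iO (Ln f N) x := by
    apply Subtype.ext
    change s⁻¹ ((x : Ln f N) : Om) = σ⁻¹ ((x : Ln f N) : Om)
    have h6 : σ⁻¹ ((x : Ln f N) : Om) ∈ Ln f N := hnorm σ⁻¹ _ (x : Ln f N).2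
    have h7 : (σ⁻¹ * s) (σ⁻¹ ((x : Ln f N) : Om)) = σ⁻¹ ((x : Ln f N) : Om) := hρ ⟨_, h6⟩
    have h8 : s⁻¹ = (σ⁻¹ * s)⁻¹ * σ⁻¹ := by group
    rw [h8, AlgEquiv.mul_apply]
    conv_lhs => rw [← h7]
    rw [← AlgEquiv.mul_apply, inv_mul_cancel]
    rfl
  rw [h5]

/-- **The assembly of Theorem H.** -/
theorem asmH (hTH : S_TH) (hKK : S_KK) (hG3 : S_G3) (hE1 : S_E1) (hE4 : S_E4) (hE6 : S_E6)
    (hE8 : S_E8) (hE9 : S_E9) (hUHN : S_UHN) (hUNm : S_UNm) : S_H := by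
  intro f μ S N T hf h7 hμ hS hN hT v hv g hg P d hP hP2 hdP hdF hdi Sg hSgK hSgex hSguni τ hτ
  have hf0 : 0 < f := hf.pos
  obtain ⟨⟨-, hm1, -, -⟩, -, hmul, -, hper, -, hcopN, -⟩ := hUHN f N hf h7
  obtain ⟨hfin, hKF, hfix⟩ := hE8 (f * 2 ^ N) (HN f N) (Nat.mul_pos hf0 (by positivity)) hm1 hcopN
    hper hmul
  have hfin' : FiniteDimensional ℚ (Ln f N) := hfin
  have hnf : NumberField (Ln f N) := NumberField.mk
  have hKL : KQ ≤ Ln f N := hKF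
  have hwL : wO ∈ Ln f N := hKL (IntermediateField.mem_adjoin_simple_self ℚ wO)
  have htc : IsTotallyComplex (Ln f N) := tc_of_wO _ hwL
  obtain ⟨-, hnorm', -, -⟩ := hE9 f hf h7
  have hnorm : ∀ τ : Gal(Om/ℚ), ∀ x ∈ Ln f N, τ x ∈ Ln f N := hnorm' N
  obtain ⟨huF, hu0, -⟩ := hG3 f μ S N T hf h7 hμ hS hN hT v hv
  obtain ⟨ρ, hρ, hρF, hρi⟩ := rho_i hE1 hE4 hE6 hE8 hUHN hUNm hf h7 hN hP hP2
  have hi : sqr (-1) ^ 2 = -1 := sqr_sq (-1)
  have hNm0 : (Nm μ).toNat ≠ 0 := by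
    intro h0
    have h1 : Nm μ = 0 := le_antisymm (by omega) (hUNm.2.1 μ)
    have h2 : IsCoprime (Nm μ) ((2 * f : ℕ) : ℤ) := hμ
    rw [h1, isCoprime_zero_left, Int.isUnit_iff] at h2
    push_cast at h2
    omega
  refine hTH (Ln f N) Sg (uN f N μ S T v) (sqr (-1)) (2 * (7 * f * (Nm μ).toNat))
    (fun σ _ => hnorm σ) (fun σ hσ τ' hτ' h3 => hSguni σ hσ τ' hτ' ?_) huF hu0 hi
    ⟨P, hP.1, hP.2, ρ, hρ, hρF, hρi _ hi⟩ (by positivity)
    (thn_of_kk hKK hf h7 hμ hS hN hT hv hnorm hSgK hSgex) g hg P hP.1 ((two_mem_iff hP.1).1 hP2)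
    d (stab_of_le hP hdP) hdF (hdi _ hi) τ hτ
  rintro ⟨x, hx⟩
  change (σ⁻¹ * τ') x = x
  rw [AlgEquiv.mul_apply, ← h3 x hx, ← AlgEquiv.mul_apply, inv_mul_cancel]
  rfl

end Pool.Agent.DI
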