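import Pool.Agent.Lib.DI.T.SpecT

/-!
# DI, part T, module TBad: the class character of an unramified character, up to density zero
-/

set_option autoImplicit false

open scoped Pointwise nonZeroDivisors

noncomputable section

namespace Pool.Agent.DI

open Pool.Agent.MuZ Pool.Agent.FW NumberField IsDedekindDomain

/-- A Frobenius element at `P` is in the decomposition group of `P`. -/
private theorem TBad_stab (P : Ideal ZZ) (hP : P.IsPrime) (σ : Gal(Om/ℚ)) (q : ℕ)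
    (h : ∀ x : ZZ, σ • x - x ^ q ∈ P) : σ ∈ MulAction.stabilizer Gal(Om/ℚ) P := by
  have hq : q ≠ 0 := by
    rintro rfl
    have h1 := h 0
    rw [smul_zero, pow_zero, zero_sub] at h1
    exact hP.ne_top ((Ideal.eq_top_iff_one P).2 (by simpa using P.neg_mem h1))
  have key : ∀ y : ZZ, σ • y ∈ P ↔ y ∈ P := by
    intro y
    have h1 := h y
    constructor
    · intro h2
      have h3 := P.sub_mem h2 h1
      rw [sub_sub_cancel] at h3
      exact hP.mem_of_pow_mem q h3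
    · intro h2
      have h3 := P.add_mem h1 (Ideal.pow_mem_of_mem P h2 q (Nat.pos_of_ne_zero hq))
      rwa [sub_add_cancel] at h3
  rw [MulAction.mem_stabilizer_iff]
  ext x
  rw [Ideal.mem_pointwise_smul_iff_inv_smul_mem, ← key, smul_inv_smul]

private theorem TBad_one : ∀ c : ZMod 2, c ≠ 0 → c = 1 := by decide

/-- The density argument. -/
private theorem TBad_dens (K : Type) [Field K] [NumberField K]
    (Z S B : Set (HeightOneSpectrum (𝓞 K))) (C : ℝ)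
    (hZ : ∀ x : ℝ, 0 < x → x ≤ 1 → 2 * ZD.pS K Z x ≤ Real.log (1 / x) + C)
    (hS : ZD.Dn K S (1 / 2)) (hB : B.Finite) (hSZ : S \ B ⊆ Z) : ZD.Dn K (Z \ S) 0 := by
  obtain ⟨C', hC'⟩ := hS
  refine ZD.Dn_zero_of_le (C := C / 2 + C' + B.ncard) fun x h0 h1 => ?_
  have e1 : ZD.pS K ((Z \ S) ∪ (S \ B)) x = ZD.pS K (Z \ S) x + ZD.pS K (S \ B) x := by
    unfold ZD.pS
    rw [← (ZD.summable_ind (Z \ S) h0).tsum_add (ZD.summable_ind (S \ B) h0)]
    refine tsum_congr fun v => ?_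
    rw [Set.indicator_union_of_disjoint]
    rw [Set.disjoint_left]
    intro w hw hw'
    exact hw.2 hw'.1
  have e2 : ZD.pS K ((Z \ S) ∪ (S \ B)) x ≤ ZD.pS K Z x :=
    ZD.pS_mono (Set.union_subset Set.sdiff_subset hSZ) h0
  have e3 : ZD.pS K S x ≤ ZD.pS K (S \ B) x + ZD.pS K B x := by
    refine (ZD.pS_mono ?_ h0).trans (ZD.pS_union_le (S \ B) B h0)
    intro w hw
    by_cases hwB : w ∈ B
    · exact Or.inr hwB
    · exact Or.inl ⟨hw, hwB⟩
  have e4 := ZD.pS_finite hB h0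
  have e5 := hZ x h0 h1
  have e6 := hC' x h0 h1
  rw [abs_le] at e6
  linarith [e6.1]

/-- **TBad.** -/
theorem tTBad (hFl : S_TFl) (hCut : S_TCut) : S_TBad := by
  intro F _ _ g hg
  have hp : Fact (Nat.Prime 2) := ⟨Nat.prime_two⟩
  obtain ⟨g1, g2, g3, g4⟩ := hg
  by_cases g0 : g = 0
  · refine ⟨0, fun x _ => ?_, fun v _ => rfl, ?_⟩
    · simp
    · have h1 : {v : HeightOneSpectrum (𝓞 F) | ∃ (P : Ideal ZZ) (σ : Gal(Om/ℚ)), Ab F P v ∧
          IsFr F P σ ∧ (0 : HeightOneSpectrum (𝓞 F) → ZMod 2) v ≠ g σ} = ∅ := by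
        ext v
        simp [g0]
      rw [h1]
      exact ZD.Dn_finite Set.finite_empty
  have hgI : g ∈ VV 2 Inr F.fixingSubgroup := ⟨g1, g2, g3, fun Λ hΛ => g4 Λ (Or.inl hΛ)⟩
  have hgE : g ∈ VV 2 ∅ F.fixingSubgroup :=
    ⟨g1, g2, g3, fun Λ h => absurd h (Set.notMem_empty _)⟩
  obtain ⟨a, ha1, ha2, ha3⟩ := tR1c 2 F g hgI g0
  refine ⟨a, ha1, fun v hv => ?_, ?_⟩
  · obtain ⟨P, hP⟩ := tLie.1 F v
    obtain ⟨σ, hσ⟩ := tFrE F P hP.1 hP.2.1
    refine ha3 v ⟨P, σ, hP, hσ, ?_⟩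
    refine g4 (MulAction.stabilizer Gal(Om/ℚ) P) (Or.inr ⟨P, hP.1, ?_, rfl⟩) σ
      (TBad_stab P hP.1 σ _ hσ.2) hσ.1
    rw [hP.2.2, Ideal.mem_comap, map_ofNat] at hv
    exact_mod_cast hv
  · obtain ⟨L, iF, iN, iA, iG, hr, B, hB, hBv⟩ := hFl F g hgE g0
    obtain ⟨C, hC⟩ := hCut F a ha1 ha2
    have hS : ZD.Dn F (ZD.Spl F L) (1 / 2) := by
      have h1 := ZD.Dn_Spl F L
      rw [hr] at h1
      exact_mod_cast h1
    have hSZ : ZD.Spl F L \ B ⊆ {v | a v = 0} := by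
      rintro v ⟨hv, hvB⟩
      obtain ⟨P, hP⟩ := tLie.1 F v
      obtain ⟨σ, hσ⟩ := tFrE F P hP.1 hP.2.1
      exact ha3 v ⟨P, σ, hP, hσ, (hBv v hvB P σ hP hσ).2 hv⟩
    have hD := TBad_dens F _ _ B C hC hS hB hSZ
    refine ZD.Dn_subset ?_ (hD.union_zero (ZD.Dn_finite hB))
    rintro v ⟨P, σ, hP, hσ, hne⟩
    by_cases hvB : v ∈ B
    · exact Or.inr hvB
    refine Or.inl ⟨?_, fun hvS => ?_⟩
    · by_contra hav
      have h1 : g σ ≠ 0 := fun h0 => hav (ha3 v ⟨P, σ, hP, hσ, h0⟩)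
      exact hne (by rw [TBad_one _ hav, TBad_one _ h1])
    · have h1 := (hBv v hvB P σ hP hσ).2 hvS
      exact hne (by rw [h1]; exact ha3 v ⟨P, σ, hP, hσ, h1⟩)

end Pool.Agent.DI
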