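import Pool.Agent.Lib.DI.T.SpecT

set_option autoImplicit false

open scoped Pointwise nonZeroDivisors

noncomputable section

namespace Pool.Agent.DI

open Pool.Agent.MuZ Pool.Agent.FW NumberField IsDedekindDomain

/-- the restriction of `σ` to a stable number field -/
private def TCj_f (F : IntermediateField ℚ Om) [NumberField F] (σ : Gal(Om/ℚ))
    (h : ∀ x ∈ F, σ x ∈ F) : F →ₐ[ℚ] F where
  toFun x := ⟨σ x, h x x.2⟩
  map_one' := by
    apply Subtype.ext
    show σ ((1 : F) : Om) = 1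
    rw [OneMemClass.coe_one, map_one]
  map_mul' x y := by
    apply Subtype.ext
    show σ ((x * y : F) : Om) = σ x * σ y
    rw [MulMemClass.coe_mul, map_mul]
  map_zero' := by
    apply Subtype.ext
    show σ ((0 : F) : Om) = 0
    rw [ZeroMemClass.coe_zero, map_zero]
  map_add' x y := by
    apply Subtype.ext
    show σ ((x + y : F) : Om) = σ x + σ y
    rw [AddMemClass.coe_add, map_add]
  commutes' q := by
    apply Subtype.ext
    show σ ((algebraMap ℚ F q : F) : Om) = algebraMap ℚ Om q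
    exact σ.commutes q

private def TCj_s (F : IntermediateField ℚ Om) [NumberField F] (σ : Gal(Om/ℚ))
    (h : ∀ x ∈ F, σ x ∈ F) : 𝓞 F ≃+* 𝓞 F :=
  RingOfIntegers.mapRingEquiv
    (AlgEquiv.ofBijective (TCj_f F σ h) (AlgHom.bijective _)).toRingEquiv

private theorem TCj_iO (F : IntermediateField ℚ Om) [NumberField F] (σ : Gal(Om/ℚ))
    (h : ∀ x ∈ F, σ x ∈ F) (x : 𝓞 F) : iO F (TCj_s F σ h x) = σ • iO F x := by
  apply Subtype.ext
  rfl

/-- the permutation of the primes induced by an automorphism -/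
private def TCj_e {R : Type} [CommRing R] (s : R ≃+* R) :
    HeightOneSpectrum R ≃ HeightOneSpectrum R where
  toFun v := ⟨v.asIdeal.comap (s.symm : R →+* R), v.isPrime.comap _, by
    intro h0
    apply v.ne_bot
    rw [eq_bot_iff] at h0 ⊢
    intro x hx
    have h1 : s x ∈ v.asIdeal.comap (s.symm : R →+* R) := by
      rw [Ideal.mem_comap]
      show s.symm (s x) ∈ v.asIdeal
      rwa [s.symm_apply_apply]
    have h2 := h0 h1
    rw [Ideal.mem_bot] at h2 ⊢
    exact (map_eq_zero_iff s s.injective).1 h2⟩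
  invFun v := ⟨v.asIdeal.comap (s : R →+* R), v.isPrime.comap _, by
    intro h0
    apply v.ne_bot
    rw [eq_bot_iff] at h0 ⊢
    intro x hx
    have h1 : s.symm x ∈ v.asIdeal.comap (s : R →+* R) := by
      rw [Ideal.mem_comap]
      show s (s.symm x) ∈ v.asIdeal
      rwa [s.apply_symm_apply]
    have h2 := h0 h1
    rw [Ideal.mem_bot] at h2 ⊢
    exact (map_eq_zero_iff s.symm s.symm.injective).1 h2⟩
  left_inv v := by
    apply HeightOneSpectrum.ext
    ext x
    show s.symm (s x) ∈ v.asIdeal ↔ x ∈ v.asIdeal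
    rw [s.symm_apply_apply]
  right_inv v := by
    apply HeightOneSpectrum.ext
    ext x
    show s (s.symm x) ∈ v.asIdeal ↔ x ∈ v.asIdeal
    rw [s.apply_symm_apply]

private theorem TCj_nm {K : Type} [Field K] [NumberField K] (s : 𝓞 K ≃+* 𝓞 K)
    (v : HeightOneSpectrum (𝓞 K)) : ZD.nm (TCj_e s v) = ZD.nm v := by
  unfold ZD.nm
  rw [Ideal.absNorm_apply, Ideal.absNorm_apply, Submodule.cardQuot_apply,
    Submodule.cardQuot_apply]
  have h1 : (TCj_e s v).asIdeal = v.asIdeal.map (s : 𝓞 K →+* 𝓞 K) := by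
    show v.asIdeal.comap (s.symm : 𝓞 K →+* 𝓞 K) = _
    exact Ideal.comap_symm s
  exact (Nat.card_congr (Ideal.quotientEquiv _ _ s h1).toEquiv).symm

private theorem TCj_pS {K : Type} [Field K] [NumberField K] (s : 𝓞 K ≃+* 𝓞 K)
    (X : Set (HeightOneSpectrum (𝓞 K))) (x : ℝ) :
    ZD.pS K {v | TCj_e s v ∈ X} x = ZD.pS K X x := by
  unfold ZD.pS
  rw [← (TCj_e s).tsum_eq (fun v => X.indicator (fun w => (ZD.nm w : ℝ) ^ (-(1 + x))) v)]
  refine tsum_congr fun v => ?_
  by_cases hv : TCj_e s v ∈ X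
  · rw [Set.indicator_of_mem hv, Set.indicator_of_mem (show v ∈ {v | TCj_e s v ∈ X} from hv),
      TCj_nm]
  · rw [Set.indicator_of_notMem hv,
      Set.indicator_of_notMem (show v ∉ {v | TCj_e s v ∈ X} from hv)]

theorem tTCj : S_TCj := by
  intro F _ σ hσ X hX
  obtain ⟨C, hC⟩ := hX
  refine ZD.Dn_zero_of_le (C := C) fun x h0 h1 => ?_
  have h2 : {v : HeightOneSpectrum (𝓞 F) | ∃ (P : Ideal ZZ) (v' : HeightOneSpectrum (𝓞 F)),
      Ab F P v ∧ Ab F (σ • P) v' ∧ v' ∈ X} ⊆ {v | TCj_e (TCj_s F σ hσ) v ∈ X} := by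
    rintro v ⟨P, v', h3, h4, h5⟩
    show TCj_e (TCj_s F σ hσ) v ∈ X
    have h6 : TCj_e (TCj_s F σ hσ) v = v' := by
      apply HeightOneSpectrum.ext
      ext y
      rw [h4.2.2, Ideal.mem_comap, Ideal.mem_pointwise_smul_iff_inv_smul_mem]
      show (TCj_s F σ hσ).symm y ∈ v.asIdeal ↔ _
      rw [h3.2.2, Ideal.mem_comap]
      have h7 : iO F ((TCj_s F σ hσ).symm y) = σ⁻¹ • iO F y := by
        rw [eq_inv_smul_iff, ← TCj_iO F σ hσ, RingEquiv.apply_symm_apply]
      rw [h7]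
    rw [h6]
    exact h5
  have h3 := ZD.pS_mono h2 h0
  rw [TCj_pS] at h3
  have h4 := hC x h0 h1
  rw [zero_mul, sub_zero] at h4
  exact h3.trans ((le_abs_self _).trans h4)

end Pool.Agent.DI
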