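import Pool.Agent.Lib.DI.T.SpecT

/-!
# Theorem DI, part T, module TCut: the zeros of one class character of order 2
-/

set_option autoImplicit false

open scoped Pointwise nonZeroDivisors

noncomputable section

namespace Pool.Agent.DI

open Pool.Agent.MuZ Pool.Agent.FW NumberField IsDedekindDomain

theorem tTCut : S_TCut := by
  classical
  intro K _ _ a ha hne
  have hPB : S_PB := tPB (tLB tZA tZB)
  obtain ⟨φ, hφ⟩ := tHom 2 K a ha
  let ψ : AddChar (ZMod 2) ℂ := ZMod.stdAddChar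
  have hψn : ∀ z : ZMod 2, ‖ψ z‖ = 1 := fun z => AddChar.norm_apply ψ z
  let X : ZMod 2 → (ClassGroup (𝓞 K) →* ℂˣ) := fun c => MonoidHom.toHomUnits
    { toFun := fun Cl => ψ (c * (φ Cl).toAdd)
      map_one' := by
        rw [φ.map_one, toAdd_one, mul_zero, AddChar.map_zero_eq_one]
      map_mul' := fun x y => by
        have e1 : (φ (x * y)).toAdd = (φ x).toAdd + (φ y).toAdd := by
          rw [φ.map_mul]
          rfl
        rw [e1, ← AddChar.map_add_eq_mul, mul_add] }
  have hX : ∀ (c : ZMod 2) (v : HeightOneSpectrum (𝓞 K)),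
      ((X c (ClassGroup.mk0 (MP7ed9c3.Tw.D6a.pr v)) : ℂˣ) : ℂ) = ψ (c * a v) := by
    intro c v
    show ψ (c * (φ (ClassGroup.mk0 (MP7ed9c3.Tw.D6a.pr v))).toAdd) = _
    rw [hφ, toAdd_ofAdd]
  have hX1 : ∀ c : ZMod 2, c ≠ 0 → X c ≠ 1 := by
    intro c hc h
    apply hne
    funext v
    have h1 := hX c v
    rw [h, MonoidHom.one_apply, Units.val_one, ← ψ.map_zero_eq_one] at h1
    have h2 : c * a v = 0 := (ZMod.injective_stdAddChar h1).symm
    rcases mul_eq_zero.mp h2 with h3 | h3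
    · exact absurd h3 hc
    · exact h3
  have hB : ∀ c : ZMod 2, ∃ C : ℝ, ∀ x : ℝ, 0 < x → x ≤ 1 →
      ∑' v : HeightOneSpectrum (𝓞 K), (ψ (c * a v)).re *
        (ZD.nm v : ℝ) ^ (-(1 + x)) ≤ (if c = 0 then Real.log (1 / x) else 0) + C := by
    intro c
    by_cases hc : c = 0
    · obtain ⟨C, hC⟩ := ZD.Dn_univ (K := K)
      refine ⟨C, fun x h0 h1 => ?_⟩
      rw [if_pos hc, hc]
      have h2 := (abs_le.1 (hC x h0 h1)).2
      have h3 : ∑' v : HeightOneSpectrum (𝓞 K),
          (ψ ((0 : ZMod 2) * a v)).re * (ZD.nm v : ℝ) ^ (-(1 + x)) = ZD.pS K Set.univ x := by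
        unfold ZD.pS
        refine tsum_congr fun v => ?_
        rw [Set.indicator_univ, zero_mul, AddChar.map_zero_eq_one, Complex.one_re, one_mul]
      rw [h3]
      linarith
    · obtain ⟨C, hC⟩ := hPB K (X c) (hX1 _ hc)
      refine ⟨C, fun x h0 h1 => ?_⟩
      rw [if_neg hc, zero_add]
      refine le_of_eq_of_le (tsum_congr fun v => ?_) (hC x h0 h1)
      rw [hX]
  choose C hC using hB
  refine ⟨∑ c, C c, fun x h0 h1 => ?_⟩
  have hs : ∀ c ∈ (Finset.univ : Finset (ZMod 2)),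
      Summable fun v : HeightOneSpectrum (𝓞 K) => (ψ (c * a v)).re *
        (ZD.nm v : ℝ) ^ (-(1 + x)) := by
    intro c _
    refine Summable.of_norm_bounded (ZD.summable_all (K := K) h0) fun v => ?_
    rw [norm_mul, Real.norm_of_nonneg (ZD.term_nonneg v x)]
    refine mul_le_of_le_one_left (ZD.term_nonneg v x) ?_
    rw [Real.norm_eq_abs]
    exact (Complex.abs_re_le_norm _).trans (hψn _).le
  have hsum : ∀ v : HeightOneSpectrum (𝓞 K),
      ∑ c : ZMod 2, (ψ (c * a v)).re = if a v = 0 then (2 : ℝ) else 0 := by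
    intro v
    have hprim : ψ.IsPrimitive := ZMod.isPrimitive_stdAddChar 2
    rw [← Complex.re_sum, AddChar.sum_mulShift _ hprim]
    by_cases h2 : a v = 0
    · rw [if_pos h2, if_pos h2, ZMod.card, Complex.natCast_re, Nat.cast_ofNat]
    · rw [if_neg h2, if_neg h2, Nat.cast_zero, Complex.zero_re]
  have key : 2 * ZD.pS K {v | a v = 0} x =
      ∑ c : ZMod 2, ∑' v : HeightOneSpectrum (𝓞 K),
        (ψ (c * a v)).re * (ZD.nm v : ℝ) ^ (-(1 + x)) := by
    rw [← Summable.tsum_finsetSum hs]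
    unfold ZD.pS
    rw [← tsum_mul_left]
    refine tsum_congr fun v => ?_
    rw [← Finset.sum_mul, hsum v]
    by_cases h : a v = 0
    · rw [if_pos h, Set.indicator_of_mem (show v ∈ {v | a v = 0} from h)]
    · rw [if_neg h, Set.indicator_of_notMem (show v ∉ {v | a v = 0} from h), mul_zero, zero_mul]
  rw [key]
  refine (Finset.sum_le_sum fun c _ => hC c x h0 h1).trans (le_of_eq ?_)
  rw [Finset.sum_add_distrib, Finset.sum_ite_eq']
  simp

end Pool.Agent.DI
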