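import Pool.Agent.Lib.DI.T.SpecT

set_option autoImplicit false

/-!
# Theorem DI, part T, module TDis: conjugates of a prime of degree one
-/

open scoped Pointwise nonZeroDivisors

noncomputable section

namespace Pool.Agent.DI

open Pool.Agent.MuZ Pool.Agent.FW NumberField IsDedekindDomain

private theorem TDis_aut (F : IntermediateField ℚ Om) [NumberField F] (σ : Gal(Om/ℚ))
    (h : ∀ x ∈ F, σ x ∈ F) : ∃ s : 𝓞 F ≃+* 𝓞 F, ∀ x : 𝓞 F, iO F (s x) = σ • iO F x := by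
  let f : F →ₐ[ℚ] F := ((σ : Om →ₐ[ℚ] Om).comp F.val).codRestrict F.toSubalgebra
    (fun x => h x x.2)
  have hf : Function.Bijective f := AlgHom.bijective f
  let e : F ≃+* F := RingEquiv.ofBijective f hf
  exact ⟨RingOfIntegers.mapRingEquiv e, fun x => Subtype.ext rfl⟩

private theorem TDis_agree (F : IntermediateField ℚ Om) [NumberField F] (σ τ : Gal(Om/ℚ))
    (h : ∀ a : 𝓞 F, σ • iO F a = τ • iO F a) : ∀ x ∈ F, σ x = τ x := by
  intro x hx
  have h1 : ∀ a : 𝓞 F, σ (((a : F)) : Om) = τ ((a : F) : Om) := by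
    intro a
    exact congrArg (fun y : ZZ => (y : Om)) (h a)
  obtain ⟨a, b, hb, hab⟩ := IsFractionRing.div_surjective (𝓞 F) (⟨x, hx⟩ : F)
  have h2 : x = ((a : F) : Om) / ((b : F) : Om) := by
    have h3 := congrArg (fun y : F => (y : Om)) hab
    exact h3.symm
  rw [h2, map_div₀, map_div₀, h1, h1]

private theorem TDis_int (F : Type) [Field F] [NumberField F] (v : HeightOneSpectrum (𝓞 F))
    (hv : (ZD.nm v).Prime) (x : 𝓞 F) : ∃ n : ℤ, x - (n : 𝓞 F) ∈ v.asIdeal := by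
  have hm : v.asIdeal.IsMaximal := v.isMaximal
  have hcard : Nat.card (𝓞 F ⧸ v.asIdeal) = ZD.nm v := rfl
  have hp : Fact (ZD.nm v).Prime := ⟨hv⟩
  have hne : (1 : 𝓞 F ⧸ v.asIdeal) ≠ 0 := by
    have hn : Nontrivial (𝓞 F ⧸ v.asIdeal) := Ideal.Quotient.nontrivial_iff.2 hm.ne_top
    exact one_ne_zero
  have h1 := mem_zmultiples_of_prime_card hcard (g' := Ideal.Quotient.mk v.asIdeal x) hne
  obtain ⟨n, hn⟩ := AddSubgroup.mem_zmultiples_iff.1 h1
  refine ⟨n, ?_⟩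
  rw [← Ideal.Quotient.eq_zero_iff_mem, map_sub, ← hn, map_intCast, zsmul_one, sub_self]

private theorem TDis_pair (F : IntermediateField ℚ Om) [NumberField F] (σ τ : Gal(Om/ℚ))
    (hσ : ∀ x ∈ F, σ x ∈ F) (hτ : ∀ x ∈ F, τ x ∈ F) (hne : ¬ ∀ x ∈ F, σ x = τ x) :
    ∃ B : Set (HeightOneSpectrum (𝓞 F)), B.Finite ∧ ∀ v ∉ B, (ZD.nm v).Prime →
      ∀ P : Ideal ZZ, Ab F P v → (σ • P).comap (iO F) ≠ (τ • P).comap (iO F) := by
  have h1 : ∃ a : 𝓞 F, σ • iO F a ≠ τ • iO F a := by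
    by_contra h
    push Not at h
    exact hne (TDis_agree F σ τ h)
  obtain ⟨a, ha⟩ := h1
  obtain ⟨s, hs⟩ := TDis_aut F σ hσ
  obtain ⟨t, ht⟩ := TDis_aut F τ hτ
  set z : 𝓞 F := t.symm (s a) with hz
  have htz : t z = s a := by rw [hz, RingEquiv.apply_symm_apply]
  have hδ : z - a ≠ 0 := by
    intro h
    rw [sub_eq_zero] at h
    apply ha
    rw [← hs, ← ht, ← htz, h]
  refine ⟨{v | z - a ∈ v.asIdeal}, ZD.finite_mem _ hδ, ?_⟩
  intro v hv hp P hP hcomap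
  apply hv
  obtain ⟨n, hn⟩ := TDis_int F v hp a
  have e1 : iO F (a - n) ∈ P := by
    rw [hP.2.2] at hn
    exact hn
  have e2 : s (a - n) ∈ (σ • P).comap (iO F) := by
    rw [Ideal.mem_comap, hs]
    exact Ideal.smul_mem_pointwise_smul_iff.2 e1
  have e3 : s (a - n) = t (z - n) := by
    rw [map_sub, map_sub, htz, map_intCast, map_intCast]
  rw [hcomap, e3, Ideal.mem_comap, ht, Ideal.smul_mem_pointwise_smul_iff] at e2
  have e4 : z - n ∈ v.asIdeal := by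
    rw [hP.2.2]
    exact e2
  have e5 : z - a = (z - n) - (a - n) := by ring
  show z - a ∈ v.asIdeal
  rw [e5]
  exact sub_mem e4 hn

theorem tTDis : S_TDis := by
  intro F _ R hR hinj
  have key : ∀ σ τ : Gal(Om/ℚ), ∃ B : Set (HeightOneSpectrum (𝓞 F)), B.Finite ∧
      (σ ∈ R → τ ∈ R → ∀ v ∉ B, (ZD.nm v).Prime →
      ∀ P : Ideal ZZ, Ab F P v → (σ • P).comap (iO F) = (τ • P).comap (iO F) → σ = τ) := by
    intro σ τ
    by_cases hσ : σ ∈ R
    · by_cases hτ : τ ∈ R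
      · by_cases hne : ∀ x ∈ F, σ x = τ x
        · exact ⟨∅, Set.finite_empty, fun _ _ v _ _ P _ _ => hinj σ hσ τ hτ hne⟩
        · obtain ⟨B, hB, h⟩ := TDis_pair F σ τ (hR σ hσ) (hR τ hτ) hne
          exact ⟨B, hB, fun _ _ v hv hp P hP hc => absurd hc (h v hv hp P hP)⟩
      · exact ⟨∅, Set.finite_empty, fun _ h => absurd h hτ⟩
    · exact ⟨∅, Set.finite_empty, fun h => absurd h hσ⟩
  choose B hB hB2 using key
  refine ⟨⋃ σ ∈ (R : Set Gal(Om/ℚ)), ⋃ τ ∈ (R : Set Gal(Om/ℚ)), B σ τ, ?_, ?_⟩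
  · exact Set.Finite.biUnion R.finite_toSet fun σ _ =>
      Set.Finite.biUnion R.finite_toSet fun τ _ => hB σ τ
  · intro v hv hp P hP σ hσ τ hτ hc
    refine hB2 σ τ hσ hτ v (fun h => hv ?_) hp P hP hc
    exact Set.mem_biUnion (Finset.mem_coe.2 hσ) (Set.mem_biUnion (Finset.mem_coe.2 hτ) h)

end Pool.Agent.DI
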