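import Pool.Agent.Lib.DI.T.SpecT

set_option autoImplicit false

open scoped Pointwise nonZeroDivisors

noncomputable section

namespace Pool.Agent.DI

open Pool.Agent.MuZ Pool.Agent.FW NumberField IsDedekindDomain

private theorem TH_inv (F : IntermediateField ℚ Om) [NumberField F] (σ : Gal(Om/ℚ))
    (h : ∀ x ∈ F, σ x ∈ F) : ∀ x ∈ F, σ⁻¹ x ∈ F := by
  let f : F →ₗ[ℚ] F :=
    { toFun := fun x => ⟨σ x, h x x.2⟩
      map_add' := fun a b => Subtype.ext (by simp)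
      map_smul' := fun c a => Subtype.ext (by
        change σ (c • (a : Om)) = c • σ (a : Om)
        rw [Algebra.smul_def, Algebra.smul_def, map_mul, σ.commutes]) }
  have hinj : Function.Injective f := by
    intro a b hab
    have h1 : σ (a : Om) = σ (b : Om) := congrArg Subtype.val hab
    exact Subtype.ext (σ.injective h1)
  have hsurj : Function.Surjective f := LinearMap.injective_iff_surjective.1 hinj
  intro x hx
  obtain ⟨y, hy⟩ := hsurj ⟨x, hx⟩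
  have h1 : σ (y : Om) = x := congrArg Subtype.val hy
  have h2 : σ⁻¹ (σ (y : Om)) = y := AlgEquiv.symm_apply_apply σ (y : Om)
  rw [← h1, h2]
  exact y.2

private theorem TH_fix {F : IntermediateField ℚ Om} {σ : Gal(Om/ℚ)} (h : σ ∈ F.fixingSubgroup)
    {x : Om} (hx : x ∈ F) : σ x = x :=
  (IntermediateField.mem_fixingSubgroup_iff F σ).1 h x hx

private theorem TH_norm (F : IntermediateField ℚ Om) [NumberField F] (σ τ : Gal(Om/ℚ))
    (h : ∀ x ∈ F, σ x ∈ F) (hτ : τ ∈ F.fixingSubgroup) : σ * τ * σ⁻¹ ∈ F.fixingSubgroup := by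
  rw [IntermediateField.mem_fixingSubgroup_iff]
  intro x hx
  have h1 : σ⁻¹ x ∈ F := TH_inv F σ h x hx
  have h2 : (σ * τ * σ⁻¹) x = σ (τ (σ⁻¹ x)) := rfl
  rw [h2, TH_fix hτ h1]
  exact AlgEquiv.apply_symm_apply σ x

private theorem TH_cj (σ ρ : Gal(Om/ℚ)) (Λ : Subgroup Gal(Om/ℚ)) (hρ : ρ ∈ Λ) :
    σ * ρ * σ⁻¹ ∈ cj σ Λ := by
  unfold cj
  rw [Subgroup.mem_map]
  exact ⟨ρ, hρ, by simp [MulAut.conj_apply]⟩

private theorem TH_stab (σ : Gal(Om/ℚ)) (P : Ideal ZZ) :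
    cj σ (MulAction.stabilizer Gal(Om/ℚ) P) = MulAction.stabilizer Gal(Om/ℚ) (σ • P) := by
  unfold cj
  rw [MulAction.stabilizer_smul_eq_stabilizer_map_conj]

private theorem TH_inertia (σ : Gal(Om/ℚ)) (P : Ideal ZZ) :
    cj σ (P.inertia Gal(Om/ℚ)) = (σ • P).inertia Gal(Om/ℚ) := by
  ext τ
  unfold cj
  rw [Subgroup.mem_map]
  constructor
  · rintro ⟨ρ, hρ, rfl⟩
    intro x
    have h1 := hρ (σ⁻¹ • x)
    have h2 : σ • (ρ • σ⁻¹ • x - σ⁻¹ • x) ∈ σ • P := Ideal.smul_mem_pointwise_smul σ _ P h1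
    rw [smul_sub, smul_inv_smul] at h2
    simpa [MulAut.conj_apply, mul_smul] using h2
  · intro hτ
    refine ⟨σ⁻¹ * τ * σ, ?_, ?_⟩
    · intro x
      have h1 := hτ (σ • x)
      have h2 : σ⁻¹ • (τ • σ • x - σ • x) ∈ σ⁻¹ • (σ • P) := Ideal.smul_mem_pointwise_smul σ⁻¹ _ _ h1
      rw [inv_smul_smul, smul_sub, inv_smul_smul] at h2
      simpa [mul_smul] using h2
    · simp [MulAut.conj_apply, mul_assoc]

private theorem TH_loc (p : ℕ) (σ : Gal(Om/ℚ)) (Λ : Subgroup Gal(Om/ℚ)) (hΛ : Λ ∈ Loc p) :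
    cj σ Λ ∈ Loc p := by
  rcases hΛ with ⟨P, hP, hP0, rfl⟩ | ⟨P, hP, hpP, rfl⟩
  · left
    refine ⟨σ • P, Ideal.IsPrime.smul σ, ?_, TH_inertia σ P⟩
    intro h
    apply hP0
    have h1 : σ⁻¹ • (σ • P) = σ⁻¹ • (⊥ : Ideal ZZ) := by rw [h]
    rw [inv_smul_smul] at h1
    rw [h1]
    exact Ideal.smul_bot σ⁻¹
  · right
    refine ⟨σ • P, Ideal.IsPrime.smul σ, ?_, TH_stab σ P⟩
    have h1 : σ • (p : ZZ) ∈ σ • P := Ideal.smul_mem_pointwise_smul σ _ P hpP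
    have h2 : σ • (p : ZZ) = (p : ZZ) :=
      map_natCast (MulSemiringAction.toRingHom Gal(Om/ℚ) ZZ σ) p
    rwa [h2] at h1

/-- Theorem H, abstract form. -/
theorem tTH (hQu : S_TQu) (hKa : S_TKa) : S_TH := by
  intro F _ _ R u i M hR hR2 huF hu hi hex hM hT g hg P hP h2P d hd hdF hdi
  obtain ⟨P', hP', hP'0, ρ, hρ, hρF, hρi⟩ := hex
  have hg' := hg
  obtain ⟨g1, g2, g3, g4⟩ := hg'
  -- `g` vanishes on the conjugates of local elements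
  have key : ∀ σ ∈ R, ∀ Λ ∈ Loc 2, ∀ x ∈ Λ, x ∈ F.fixingSubgroup → g (σ * x * σ⁻¹) = 0 := by
    intro σ hσ Λ hΛ x hx hxF
    exact g4 (cj σ Λ) (TH_loc 2 σ Λ hΛ) _ (TH_cj σ x Λ hx) (TH_norm F σ x (hR σ hσ) hxF)
  have hmul : ∀ σ ∈ R, ∀ x ∈ F.fixingSubgroup, ∀ y ∈ F.fixingSubgroup,
      g (σ * (x * y) * σ⁻¹) = g (σ * x * σ⁻¹) + g (σ * y * σ⁻¹) := by
    intro σ hσ x hx y hy
    rw [← g2 _ (TH_norm F σ x (hR σ hσ) hx) _ (TH_norm F σ y (hR σ hσ) hy)]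
    congr 1
    group
  have h1 : ∀ τ ∈ F.fixingSubgroup, τ i = i →
      ∑ σ ∈ R, kap (σ⁻¹ u) d * g (σ * τ * σ⁻¹) = 0 := by
    intro τ hτ hτi
    have e1 := hQu F R u i M hR hR2 huF hu hi hM hT g hg (d * τ) (mul_mem hdF hτ)
      (by
        change d (τ i) = i
        rw [hτi, hdi])
    have e2 := hQu F R u i M hR hR2 huF hu hi hM hT g hg τ hτ hτi
    have e3 : ∑ σ ∈ R, kap (σ⁻¹ u) (d * τ) * g (σ * (d * τ) * σ⁻¹) =
        ∑ σ ∈ R, kap (σ⁻¹ u) d * g (σ * τ * σ⁻¹) +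
          ∑ σ ∈ R, kap (σ⁻¹ u) τ * g (σ * τ * σ⁻¹) := by
      rw [← Finset.sum_add_distrib]
      refine Finset.sum_congr rfl fun σ hσ => ?_
      have hz : σ⁻¹ u ∈ F := TH_inv F σ (hR σ hσ) u huF
      have hz0 : σ⁻¹ u ≠ 0 := by
        intro h0
        exact hu ((map_eq_zero_iff (σ⁻¹ : Gal(Om/ℚ)) (σ⁻¹ : Gal(Om/ℚ)).injective).1 h0)
      rw [hKa.1 (σ⁻¹ u) d τ hz0 (TH_fix hdF hz) (TH_fix hτ hz), hmul σ hσ d hdF τ hτ,
        key σ hσ (MulAction.stabilizer Gal(Om/ℚ) P) (Or.inr ⟨P, hP, by exact_mod_cast h2P, rfl⟩)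
          d hd hdF]
      ring
    rw [e1, e2, add_zero] at e3
    exact e3.symm
  intro τ hτ
  have hsq : ∀ s : Gal(Om/ℚ), s i = i ∨ s i = -i := by
    intro s
    have h3 : (s i) ^ 2 = i ^ 2 := by
      rw [← map_pow, hi, map_neg, map_one]
    exact sq_eq_sq_iff_eq_or_eq_neg.1 h3
  rcases hsq τ with h2 | h2
  · exact h1 τ hτ h2
  · have hρi' : ρ i = -i := (hsq ρ).resolve_left hρi
    have h4 := h1 (τ * ρ) (mul_mem hτ hρF) (by
      change τ (ρ i) = i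
      rw [hρi', map_neg, h2, neg_neg])
    rw [← h4]
    refine Finset.sum_congr rfl fun σ hσ => ?_
    rw [hmul σ hσ τ hτ ρ hρF,
      key σ hσ (P'.inertia Gal(Om/ℚ)) (Or.inl ⟨P', hP', hP'0, rfl⟩) ρ hρ hρF, add_zero]

end Pool.Agent.DI
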