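import Pool.Agent.Lib.DI.T.SpecT

set_option autoImplicit false

/-!
# Theorem DI, part T, module TKa: Kummer characters
-/

open scoped Pointwise nonZeroDivisors

noncomputable section

namespace Pool.Agent.DI

open Pool.Agent.MuZ Pool.Agent.FW NumberField IsDedekindDomain

private theorem TKa_ne (x : Om) (hx : x ≠ 0) : -x ≠ x := by
  intro h
  apply hx
  have h1 : (2 : Om) * x = 0 := by linear_combination (-1) * h
  rcases mul_eq_zero.1 h1 with h2 | h2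
  · exact absurd h2 two_ne_zero
  · exact h2

private theorem TKa_sqr_ne (w : Om) (hw : w ≠ 0) : sqr w ≠ 0 := by
  intro h
  apply hw
  rw [← sqr_sq w, h]
  ring

private theorem TKa_zero (w : Om) (d : Gal(Om/ℚ)) (h : d (sqr w) = sqr w) : kap w d = 0 := by
  unfold kap
  rw [if_pos h]

private theorem TKa_one (w : Om) (d : Gal(Om/ℚ)) (h : d (sqr w) ≠ sqr w) : kap w d = 1 := by
  unfold kap
  rw [if_neg h]

private theorem TKa_root (w x y : Om) (hx : x ^ 2 = w) (hy : y ^ 2 = w) : y = x ∨ y = -x :=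
  sq_eq_sq_iff_eq_or_eq_neg.1 (hy.trans hx.symm)

private theorem TKa_two (w y : Om) (d : Gal(Om/ℚ)) (hw : w ≠ 0) (hy : y ^ 2 = w) (hd : d w = w) :
    (kap w d = 0 ∧ d y = y) ∨ (kap w d = 1 ∧ d y = -y) := by
  have hs := sqr_sq w
  have hs0 := TKa_sqr_ne w hw
  have h1 : (d (sqr w)) ^ 2 = w := by rw [← map_pow, hs, hd]
  rcases TKa_root w (sqr w) (d (sqr w)) hs h1 with h2 | h2
  · left
    refine ⟨TKa_zero w d h2, ?_⟩
    rcases TKa_root w (sqr w) y hs hy with h3 | h3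
    · rw [h3, h2]
    · rw [h3, map_neg, h2]
  · right
    refine ⟨TKa_one w d (fun h => TKa_ne _ hs0 (h2.symm.trans h)), ?_⟩
    rcases TKa_root w (sqr w) y hs hy with h3 | h3
    · rw [h3, h2]
    · rw [h3, map_neg, h2]

private theorem TKa_add (w : Om) (d e : Gal(Om/ℚ)) (hw : w ≠ 0) (hd : d w = w) (he : e w = w) :
    kap w (d * e) = kap w d + kap w e := by
  have hs := sqr_sq w
  have hs0 := TKa_sqr_ne w hw
  have hde : (d * e) (sqr w) = d (e (sqr w)) := rfl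
  rcases TKa_two w (sqr w) d hw hs hd with ⟨a1, a2⟩ | ⟨a1, a2⟩ <;>
    rcases TKa_two w (sqr w) e hw hs he with ⟨b1, b2⟩ | ⟨b1, b2⟩
  · rw [a1, b1, TKa_zero w (d * e) (by rw [hde, b2, a2])]
    rfl
  · rw [a1, b1, TKa_one w (d * e) (by rw [hde, b2, map_neg, a2]; exact TKa_ne _ hs0)]
    rfl
  · rw [a1, b1, TKa_one w (d * e) (by rw [hde, b2, a2]; exact TKa_ne _ hs0)]
    rfl
  · rw [a1, b1, TKa_zero w (d * e) (by rw [hde, b2, map_neg, a2, neg_neg])]
    rfl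

private theorem TKa_conj (w : Om) (σ d : Gal(Om/ℚ)) :
    kap (σ⁻¹ w) d = kap w (σ * d * σ⁻¹) := by
  have h1 : (σ⁻¹ (sqr w)) ^ 2 = σ⁻¹ w := by rw [← map_pow, sqr_sq w]
  have hss : ∀ z : Om, σ (σ⁻¹ z) = z := fun z => σ.apply_symm_apply z
  have hss' : ∀ z : Om, σ⁻¹ (σ z) = z := fun z => σ.symm_apply_apply z
  have h2 : (σ * d * σ⁻¹) (sqr w) = σ (d (σ⁻¹ (sqr w))) := rfl
  have h3 : d (sqr (σ⁻¹ w)) = sqr (σ⁻¹ w) ↔ d (σ⁻¹ (sqr w)) = σ⁻¹ (sqr w) := by
    rcases TKa_root _ _ _ h1 (sqr_sq (σ⁻¹ w)) with h4 | h4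
    · rw [h4]
    · rw [h4, map_neg]
      exact neg_inj
  have h5 : (σ * d * σ⁻¹) (sqr w) = sqr w ↔ d (σ⁻¹ (sqr w)) = σ⁻¹ (sqr w) := by
    rw [h2]
    constructor
    · intro h
      rw [← hss' (d (σ⁻¹ (sqr w))), h]
    · intro h
      rw [h, hss]
  by_cases h6 : d (σ⁻¹ (sqr w)) = σ⁻¹ (sqr w)
  · rw [TKa_zero _ _ (h3.2 h6), TKa_zero _ _ (h5.2 h6)]
  · rw [TKa_one _ _ (fun h => h6 (h3.1 h)), TKa_one _ _ (fun h => h6 (h5.1 h))]

theorem tTKa : S_TKa := by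
  refine ⟨TKa_add, TKa_two, fun w σ d _ => TKa_conj w σ d, ?_⟩
  intro F w hwF hw
  have hfix : ∀ d ∈ F.fixingSubgroup, d w = w := fun d hd =>
    (IntermediateField.mem_fixingSubgroup_iff F d).1 hd w hwF
  have hint : IsIntegral ℚ (sqr w) :=
    (Algebra.IsAlgebraic.isAlgebraic (R := ℚ) (sqr w)).isIntegral
  have hfin : FiniteDimensional ℚ (IntermediateField.adjoin ℚ {sqr w}) :=
    IntermediateField.adjoin.finiteDimensional hint
  refine ⟨?_, ?_, ?_, ?_⟩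
  · intro g hg
    exact if_neg hg
  · intro g hg h hh
    have hgh : g * h ∈ F.fixingSubgroup := mul_mem hg hh
    dsimp only
    rw [if_pos hg, if_pos hh, if_pos hgh]
    exact TKa_add w g h hw (hfix g hg) (hfix h hh)
  · refine ⟨⟨(IntermediateField.adjoin ℚ {sqr w}).fixingSubgroup,
      (IntermediateField.adjoin ℚ {sqr w}).fixingSubgroup_isOpen⟩, ?_⟩
    intro g hg hO
    dsimp only
    rw [if_pos hg]
    apply TKa_zero
    have hO' : g ∈ (IntermediateField.adjoin ℚ {sqr w}).fixingSubgroup := hO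
    exact (IntermediateField.mem_fixingSubgroup_iff _ g).1 hO' (sqr w)
      (IntermediateField.mem_adjoin_simple_self ℚ (sqr w))
  · intro Λ hΛ
    exact absurd hΛ (Set.notMem_empty Λ)

end Pool.Agent.DI
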