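import Pool.Agent.Lib.DI.T.SpecT

/-! Theorem DI, part T: the quadratic relation. -/

set_option autoImplicit false

open scoped Pointwise nonZeroDivisors

noncomputable section

namespace Pool.Agent.DI

open Pool.Agent.MuZ Pool.Agent.FW NumberField IsDedekindDomain

private theorem TQu_inv (F : IntermediateField ℚ Om) [NumberField F] (σ : Gal(Om/ℚ))
    (h : ∀ x ∈ F, σ x ∈ F) : ∀ y ∈ F, σ⁻¹ y ∈ F := by
  intro y hy
  let f : F →ₗ[ℚ] F :=
    { toFun := fun x => ⟨σ x, h x x.2⟩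
      map_add' := fun x x' => Subtype.ext (map_add σ (x : Om) (x' : Om))
      map_smul' := fun c x => Subtype.ext (by
        change σ (c • (x : Om)) = c • σ (x : Om)
        exact (AlgEquiv.toLinearMap σ).map_smul c (x : Om)) }
  have hf : Function.Injective f := by
    intro x x' e
    have e1 : σ (x : Om) = σ (x' : Om) := congrArg Subtype.val e
    exact Subtype.ext (σ.injective e1)
  obtain ⟨x, hx⟩ := (LinearMap.injective_iff_surjective.1 hf) ⟨y, hy⟩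
  have e1 : σ (x : Om) = y := congrArg Subtype.val hx
  rw [← e1]
  have e2 : σ⁻¹ (σ (x : Om)) = x := by
    rw [← AlgEquiv.mul_apply, inv_mul_cancel, AlgEquiv.one_apply]
  rw [e2]
  exact x.2

private theorem TQu_conj (F : IntermediateField ℚ Om) [NumberField F] (σ : Gal(Om/ℚ))
    (h : ∀ x ∈ F, σ x ∈ F) (τ : Gal(Om/ℚ)) :
    σ * τ * σ⁻¹ ∈ F.fixingSubgroup ↔ τ ∈ F.fixingSubgroup := by
  have h' := TQu_inv F σ h
  rw [IntermediateField.mem_fixingSubgroup_iff, IntermediateField.mem_fixingSubgroup_iff]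
  constructor
  · intro e x hx
    have e1 := e (σ x) (h x hx)
    rw [AlgEquiv.mul_apply, AlgEquiv.mul_apply] at e1
    have e2 : σ⁻¹ (σ x) = x := by
      rw [← AlgEquiv.mul_apply, inv_mul_cancel, AlgEquiv.one_apply]
    rw [e2] at e1
    exact σ.injective e1
  · intro e x hx
    rw [AlgEquiv.mul_apply, AlgEquiv.mul_apply, e _ (h' x hx), ← AlgEquiv.mul_apply,
      mul_inv_cancel, AlgEquiv.one_apply]

private theorem TQu_VV (F : IntermediateField ℚ Om) [NumberField F] (σ : Gal(Om/ℚ))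
    (h : ∀ x ∈ F, σ x ∈ F) (g : Gal(Om/ℚ) → ZMod 2) (hg : g ∈ VV 2 (Loc 2) F.fixingSubgroup) :
    (fun τ => g (σ * τ * σ⁻¹)) ∈ VV 2 ∅ F.fixingSubgroup := by
  obtain ⟨h1, h2, ⟨O, h3⟩, _⟩ := hg
  refine ⟨fun τ hτ => ?_, fun τ hτ ρ hρ => ?_, ?_, fun Λ hΛ => absurd hΛ (Set.notMem_empty Λ)⟩
  · exact h1 _ fun h4 => hτ ((TQu_conj F σ h τ).1 h4)
  · have e : σ * (τ * ρ) * σ⁻¹ = (σ * τ * σ⁻¹) * (σ * ρ * σ⁻¹) := by group
    change g (σ * (τ * ρ) * σ⁻¹) = _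
    rw [e]
    exact h2 _ ((TQu_conj F σ h τ).2 hτ) _ ((TQu_conj F σ h ρ).2 hρ)
  · have hc : Continuous ((MulAut.conj σ).toMonoidHom : Gal(Om/ℚ) →* Gal(Om/ℚ)) := by
      change Continuous fun τ : Gal(Om/ℚ) => σ * τ * σ⁻¹
      exact (continuous_const.mul continuous_id).mul continuous_const
    refine ⟨O.comap _ hc, fun τ hτ hO => ?_⟩
    exact h3 _ ((TQu_conj F σ h τ).2 hτ) hO

open Classical in
private def TQu_kf (F : IntermediateField ℚ Om) (w : Om) (d : Gal(Om/ℚ)) : ZMod 2 :=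
  if d ∈ F.fixingSubgroup then kap w d else 0

private theorem TQu_kf_of {F : IntermediateField ℚ Om} (w : Om) {d : Gal(Om/ℚ)}
    (h : d ∈ F.fixingSubgroup) : TQu_kf F w d = kap w d := by
  unfold TQu_kf
  rw [if_pos h]

private theorem TQu_Un {K : Type} [Field K] [NumberField K] {ι : Type} (R : Finset ι)
    (C : ι → Set (HeightOneSpectrum (𝓞 K))) (h : ∀ i ∈ R, ZD.Dn K (C i) 0) :
    ZD.Dn K (⋃ i ∈ R, C i) 0 := by
  classical
  induction R using Finset.induction_on with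
  | empty =>
    simp only [Finset.notMem_empty, Set.iUnion_of_empty, Set.iUnion_empty]
    exact ZD.Dn_finite Set.finite_empty
  | insert a s ha ih =>
    rw [Finset.set_biUnion_insert]
    exact ZD.Dn.union_zero (h a (Finset.mem_insert_self a s))
      (ih fun i hi => h i (Finset.mem_insert_of_mem hi))

private theorem TQu_card {F : IntermediateField ℚ Om} [NumberField F]
    {v : HeightOneSpectrum (𝓞 F)} {Q : Ideal ZZ} (h : Ab F Q v) :
    Nat.card (𝓞 F ⧸ Q.comap (iO F)) = ZD.nm v := by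
  rw [← h.2.2, ZD.nm, Ideal.absNorm_apply, Submodule.cardQuot_apply]

/-- `l = 1` modulo 4. -/
private theorem TQu_four {F : IntermediateField ℚ Om} [NumberField F]
    {v : HeightOneSpectrum (𝓞 F)} {Q : Ideal ZZ} (h : Ab F Q v) (h2 : (2 : 𝓞 F) ∉ v.asIdeal)
    (hp : (ZD.nm v).Prime) {φ : Gal(Om/ℚ)} (hφ : IsFr F Q φ) {i : Om} (hi : i ^ 2 = -1)
    (hφi : φ i = i) : ZD.nm v % 4 = 1 := by
  have hl : ZD.nm v ≠ 2 := by
    intro e
    apply h2
    have h1 : ((ZD.nm v : ℕ) : 𝓞 F) ∈ v.asIdeal := Ideal.absNorm_mem v.asIdeal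
    rw [e] at h1
    exact_mod_cast h1
  have hodd : ZD.nm v % 2 = 1 := Nat.odd_iff.1 (hp.odd_of_ne_two hl)
  by_contra hne
  have h3 : ZD.nm v % 4 = 3 := by omega
  have hint : IsIntegral ℤ i := by
    refine IsIntegral.of_pow (n := 2) (by norm_num) ?_
    rw [hi]
    exact isIntegral_one.neg
  let z : ZZ := ⟨i, hint⟩
  have hz : z ^ 2 = -1 := Subtype.ext hi
  have hφz : φ • z = z := Subtype.ext hφi
  have h4 := hφ.2 z
  rw [TQu_card h, hφz] at h4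
  have h5 : z ^ ZD.nm v = -z := by
    have e1 : ZD.nm v = 2 * (2 * (ZD.nm v / 4) + 1) + 1 := by omega
    rw [e1, pow_succ, pow_mul, hz, pow_succ, pow_mul]
    simp
  rw [h5] at h4
  have h6 : (2 : ZZ) ∈ Q := by
    have h7 := Q.mul_mem_left (-z) h4
    have e : -z * (z - -z) = 2 := by
      have : -z * (z - -z) = -2 * z ^ 2 := by ring
      rw [this, hz]
      ring
    rwa [e] at h7
  apply h2
  rw [h.2.2, Ideal.mem_comap, map_ofNat]
  exact h6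

theorem tTQu (hBad : S_TBad) (hSel : S_TSel) (hCj : S_TCj) (hDis : S_TDis) (hKa : S_TKa)
    (hRel : S_TRel) : S_TQu := by
  classical
  intro F _ _ R u i M hR hRi hu hu0 hi hM hT g hg φ₀ hφ₀ hφ₀i
  obtain ⟨a, ha, ha2, hX₀⟩ := hBad F g hg
  obtain ⟨B, hB, hBd⟩ := hDis F R hR hRi
  have hi0 : i ≠ 0 := by
    rintro rfl
    rw [zero_pow (by norm_num)] at hi
    exact neg_ne_zero.2 one_ne_zero hi.symm
  have hii : i ≠ -i := by
    intro e
    have : (2 : Om) * i = 0 := by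
      rw [two_mul]
      nth_rewrite 2 [e]
      exact add_neg_cancel i
    rcases mul_eq_zero.1 this with h | h
    · exact two_ne_zero h
    · exact hi0 h
  -- the bad set
  set X₀ : Set (HeightOneSpectrum (𝓞 F)) :=
    {v | ∃ (P : Ideal ZZ) (σ : Gal(Om/ℚ)), Ab F P v ∧ IsFr F P σ ∧ a v ≠ g σ} with hX₀def
  let C : Gal(Om/ℚ) → Set (HeightOneSpectrum (𝓞 F)) := fun σ =>
    {v | ∃ (P : Ideal ZZ) (v' : HeightOneSpectrum (𝓞 F)), Ab F P v ∧ Ab F (σ • P) v' ∧ v' ∈ X₀}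
  have hC : ZD.Dn F (⋃ σ ∈ R, C σ) 0 := TQu_Un R C fun σ hσ => hCj F σ (hR σ hσ) X₀ hX₀
  have hM2 : (2 * (M : 𝓞 F)) ≠ 0 :=
    mul_ne_zero two_ne_zero (Nat.cast_ne_zero.2 hM)
  have hX : ZD.Dn F ((⋃ σ ∈ R, C σ) ∪ (B ∪ {v | 2 * (M : 𝓞 F) ∈ v.asIdeal})) 0 :=
    ZD.Dn.union_zero hC (ZD.Dn_finite (hB.union (ZD.finite_mem _ hM2)))
  -- the characters
  let h : Option ({σ // σ ∈ R} ⊕ {σ // σ ∈ R}) → Gal(Om/ℚ) → ZMod 2 := fun j =>
    match j with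
    | none => TQu_kf F (-1)
    | some (Sum.inl σ) => fun τ => g (σ.1 * τ * σ.1⁻¹)
    | some (Sum.inr σ) => TQu_kf F (σ.1⁻¹ u)
  have hσu : ∀ σ ∈ R, σ⁻¹ u ∈ F ∧ σ⁻¹ u ≠ 0 := fun σ hσ =>
    ⟨TQu_inv F σ (hR σ hσ) u hu, fun e => hu0 (by
      have := congrArg σ e
      rw [← AlgEquiv.mul_apply, mul_inv_cancel, AlgEquiv.one_apply, map_zero] at this
      exact this)⟩
  have hh : ∀ j, h j ∈ VV 2 ∅ F.fixingSubgroup := by
    rintro (_ | σ | σ)
    · exact hKa.2.2.2 F (-1) (neg_mem (one_mem F)) (neg_ne_zero.2 one_ne_zero)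
    · exact TQu_VV F σ.1 (hR σ.1 σ.2) g hg
    · exact hKa.2.2.2 F (σ.1⁻¹ u) (hσu σ.1 σ.2).1 (hσu σ.1 σ.2).2
  obtain ⟨v, hvX, hvp, hv⟩ := hSel F _ h hh φ₀ hφ₀ _ hX
  rw [Set.mem_union, Set.mem_union, not_or, not_or] at hvX
  obtain ⟨hvC, hvB, hvM⟩ := hvX
  obtain ⟨Q, hQ⟩ := tLie.1 F v
  obtain ⟨φ, hφ⟩ := tFrE F Q hQ.1 hQ.2.1
  have hval := hv Q φ hQ hφ
  have h2v : (2 : 𝓞 F) ∉ v.asIdeal := fun e => hvM (Ideal.mul_mem_right _ _ e)
  have hMv : (M : 𝓞 F) ∉ v.asIdeal := fun e => hvM (Ideal.mul_mem_left _ _ e)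
  -- `φ i = i`
  have hneg : ∀ d : Gal(Om/ℚ), d (-1 : Om) = -1 := fun d => by rw [map_neg, map_one]
  have hk0 : kap (-1) φ₀ = 0 := by
    rcases hKa.2.1 (-1) i φ₀ (neg_ne_zero.2 one_ne_zero) hi (hneg φ₀) with e | e
    · exact e.1
    · rw [hφ₀i] at e
      exact absurd e.2 hii
  have hk1 : kap (-1) φ = 0 := by
    have e : TQu_kf F (-1) φ = TQu_kf F (-1) φ₀ := hval none
    rw [TQu_kf_of _ hφ.1, TQu_kf_of _ hφ₀, hk0] at e
    exact e
  have hφi : φ i = i := by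
    rcases hKa.2.1 (-1) i φ (neg_ne_zero.2 one_ne_zero) hi (hneg φ) with e | e
    · exact e.2
    · rw [hk1] at e
      exact absurd e.1 (by decide)
  have h4 := TQu_four hQ h2v hvp hφ hi hφi
  have hMQ : (M : ZZ) ∉ Q := by
    intro e
    apply hMv
    rw [hQ.2.2, Ideal.mem_comap, map_natCast]
    exact e
  obtain ⟨k, hk⟩ := hT Q φ hQ.1 hQ.2.1 hMQ (by rw [TQu_card hQ]; exact hvp)
    (by rw [TQu_card hQ]; exact h4) hφ
  have hsum := hRel F R u Q φ k g a hR hQ.1 hQ.2.1 hφ hk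
    (fun σ hσ τ hτ e => hBd v hvB hvp Q hQ σ hσ τ hτ e) ha ha2
    (fun σ hσ v' ψ hv' hψ => by
      by_contra hne
      apply hvC
      rw [Set.mem_iUnion₂]
      exact ⟨σ, hσ, Q, v', hQ, hv', σ • Q, ψ, hv', hψ, hne⟩)
  rw [← hsum]
  refine Finset.sum_congr rfl fun σ hσ => ?_
  have e1 : g (σ * φ * σ⁻¹) = g (σ * φ₀ * σ⁻¹) := hval (some (Sum.inl ⟨σ, hσ⟩))
  have e2 : TQu_kf F (σ⁻¹ u) φ = TQu_kf F (σ⁻¹ u) φ₀ := hval (some (Sum.inr ⟨σ, hσ⟩))
  rw [TQu_kf_of _ hφ.1, TQu_kf_of _ hφ₀] at e2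
  rw [e1, e2]

end Pool.Agent.DI
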