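import Pool.Agent.Lib.DI.T.SpecT

/-!
# Theorem DI, part T: primes with prescribed values of quadratic characters (helper11)
-/

set_option autoImplicit false

open scoped Pointwise nonZeroDivisors

noncomputable section

namespace Pool.Agent.DI

open Pool.Agent.MuZ Pool.Agent.FW NumberField IsDedekindDomain

/-! ### Signs -/

private def TSel_sg (a : ZMod 2) : ℝ := if a = 0 then 1 else -1

private theorem TSel_sg_zero : TSel_sg 0 = 1 := if_pos rfl

private theorem TSel_sg_add (a b : ZMod 2) : TSel_sg (a + b) = TSel_sg a * TSel_sg b := by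
  have h : ∀ a b : ZMod 2, (a = 0 ∧ b = 0 ∧ a + b = 0) ∨ (a = 0 ∧ b ≠ 0 ∧ a + b ≠ 0) ∨
      (a ≠ 0 ∧ b = 0 ∧ a + b ≠ 0) ∨ (a ≠ 0 ∧ b ≠ 0 ∧ a + b = 0) := by decide
  unfold TSel_sg
  rcases h a b with ⟨h1, h2, h3⟩ | ⟨h1, h2, h3⟩ | ⟨h1, h2, h3⟩ | ⟨h1, h2, h3⟩
  · rw [if_pos h1, if_pos h2, if_pos h3, mul_one]
  · rw [if_pos h1, if_neg h2, if_neg h3, one_mul]
  · rw [if_neg h1, if_pos h2, if_neg h3, mul_one]
  · rw [if_neg h1, if_neg h2, if_pos h3]
    norm_num

private theorem TSel_sg_sum {ι : Type} (S : Finset ι) (f : ι → ZMod 2) :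
    TSel_sg (∑ i ∈ S, f i) = ∏ i ∈ S, TSel_sg (f i) := by
  classical
  induction S using Finset.induction_on with
  | empty => rw [Finset.sum_empty, Finset.prod_empty, TSel_sg_zero]
  | insert a s ha ih => rw [Finset.sum_insert ha, Finset.prod_insert ha, TSel_sg_add, ih]

open Classical in
private theorem TSel_expand {ι : Type} [Fintype ι] (a b : ι → ZMod 2) :
    ∑ S : Finset ι, TSel_sg (∑ i ∈ S, a i) * TSel_sg (∑ i ∈ S, b i) =
      if ∀ i, a i = b i then (2 : ℝ) ^ Fintype.card ι else 0 := by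
  have h1 : ∀ S : Finset ι, TSel_sg (∑ i ∈ S, a i) * TSel_sg (∑ i ∈ S, b i) =
      ∏ i ∈ S, TSel_sg (a i + b i) := by
    intro S
    rw [← TSel_sg_add, ← Finset.sum_add_distrib, TSel_sg_sum]
  have h2 : ∑ S : Finset ι, ∏ i ∈ S, TSel_sg (a i + b i) =
      ∏ i : ι, (1 + TSel_sg (a i + b i)) := by
    rw [Finset.prod_one_add, Finset.powerset_univ]
  simp only [h1]
  rw [h2]
  split_ifs with h
  · have h3 : ∀ i, 1 + TSel_sg (a i + b i) = 2 := by
      intro i
      have h4 : ∀ c : ZMod 2, c + c = 0 := by decide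
      rw [h i, h4, TSel_sg_zero]
      norm_num
    simp only [h3, Finset.prod_const, Finset.card_univ]
  · obtain ⟨i, hi⟩ := not_forall.1 h
    refine Finset.prod_eq_zero (Finset.mem_univ i) ?_
    have h4 : ∀ c d : ZMod 2, c + d = 0 → c = d := by decide
    rw [TSel_sg, if_neg fun h5 => hi (h4 _ _ h5)]
    norm_num

/-! ### One character -/

private theorem TSel_ex (F : IntermediateField ℚ Om) [NumberField F]
    (v : HeightOneSpectrum (𝓞 F)) :
    ∃ (P : Ideal ZZ) (φ : Gal(Om/ℚ)), Ab F P v ∧ IsFr F P φ := by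
  obtain ⟨P, hP⟩ := tLie.1 F v
  obtain ⟨φ, hφ⟩ := tFrE F P hP.1 hP.2.1
  exact ⟨P, φ, hP, hφ⟩

private def TSel_A (F : IntermediateField ℚ Om) [NumberField F] (g : Gal(Om/ℚ) → ZMod 2) :
    Set (HeightOneSpectrum (𝓞 F)) :=
  {v | ∃ (P : Ideal ZZ) (φ : Gal(Om/ℚ)), Ab F P v ∧ IsFr F P φ ∧ g φ = 0}

open Classical in
private theorem TSel_one (hFl : S_TFl) (F : IntermediateField ℚ Om) [NumberField F]
    (g : Gal(Om/ℚ) → ZMod 2) (hg : g ∈ VV 2 ∅ F.fixingSubgroup) :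
    ∃ B : Set (HeightOneSpectrum (𝓞 F)), B.Finite ∧
      (∀ v ∉ B, ∀ (P : Ideal ZZ) (φ : Gal(Om/ℚ)), Ab F P v → IsFr F P φ →
        (g φ = 0 ↔ v ∈ TSel_A F g)) ∧
      ZD.Dn F (TSel_A F g) (if g = 0 then 1 else 1 / 2) := by
  by_cases h0 : g = 0
  · refine ⟨∅, Set.finite_empty, fun v _ P φ hP hφ => ?_, ?_⟩
    · have h1 : g φ = 0 := by rw [h0]; rfl
      exact ⟨fun _ => ⟨P, φ, hP, hφ, h1⟩, fun _ => h1⟩
    · rw [if_pos h0]
      have h1 : TSel_A F g = Set.univ := by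
        refine Set.eq_univ_of_forall fun v => ?_
        obtain ⟨P, φ, hP, hφ⟩ := TSel_ex F v
        exact ⟨P, φ, hP, hφ, by rw [h0]; rfl⟩
      rw [h1]
      exact ZD.Dn_univ
  · obtain ⟨L, _, _, _, hG, hfr, B, hB, hB2⟩ := hFl F g hg h0
    refine ⟨B, hB, fun v hv P φ hP hφ => ⟨fun h => ⟨P, φ, hP, hφ, h⟩, ?_⟩, ?_⟩
    · rintro ⟨P', φ', hP', hφ', h⟩
      exact (hB2 v hv P φ hP hφ).2 ((hB2 v hv P' φ' hP' hφ').1 h)
    · rw [if_neg h0]
      have h1 := ZD.Dn_Spl F L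
      rw [hfr, Nat.cast_ofNat] at h1
      refine h1.congr (ZD.Dn_finite hB) (fun v hv => ?_) (fun v hv => ?_)
      · by_cases hvB : v ∈ B
        · exact Or.inr hvB
        · obtain ⟨P, φ, hP, hφ⟩ := TSel_ex F v
          exact Or.inl ⟨P, φ, hP, hφ, (hB2 v hvB P φ hP hφ).2 hv⟩
      · by_cases hvB : v ∈ B
        · exact Or.inr hvB
        · obtain ⟨P, φ, hP, hφ, h⟩ := hv
          exact Or.inl ((hB2 v hvB P φ hP hφ).1 h)

/-- removing a finite set -/
private theorem TSel_cut {K : Type} [Field K] [NumberField K] {A B : Set (HeightOneSpectrum (𝓞 K))}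
    {d : ℝ} (hA : ZD.Dn K A d) (hB : B.Finite) : ZD.Dn K (A \ B) d := by
  refine hA.congr (ZD.Dn_finite hB) (fun v hv => ?_) (fun v hv => Or.inl hv.1)
  by_cases hvB : v ∈ B
  · exact Or.inr hvB
  · exact Or.inl ⟨hv, hvB⟩

theorem tTSel (hFl : S_TFl) : S_TSel := by
  classical
  intro F _ ι _ h hh φ₀ _ X hX
  let g : Finset ι → Gal(Om/ℚ) → ZMod 2 := fun S => ∑ i ∈ S, h i
  have hgV : ∀ S, g S ∈ VV 2 ∅ F.fixingSubgroup := fun S => Submodule.sum_mem _ fun i _ => hh i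
  have hgv : ∀ S φ, g S φ = ∑ i ∈ S, h i φ := fun S φ => Finset.sum_apply φ S h
  choose BB hBf hB1 hB2 using fun S => TSel_one hFl F (g S) (hgV S)
  let B : Set (HeightOneSpectrum (𝓞 F)) := ⋃ S, BB S
  have hB : B.Finite := Set.finite_iUnion hBf
  have hmem : ∀ v ∉ B, ∀ S, v ∉ BB S := fun v hv S h => hv (Set.mem_iUnion.2 ⟨S, h⟩)
  -- the value of a character
  have hcl : ∀ v ∉ B, ∀ (P : Ideal ZZ) (φ : Gal(Om/ℚ)) (P' : Ideal ZZ) (φ' : Gal(Om/ℚ)),
      Ab F P v → IsFr F P φ → Ab F P' v → IsFr F P' φ' → ∀ i, h i φ = h i φ' := by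
    intro v hv P φ P' φ' hP hφ hP' hφ' i
    have e1 := hB1 {i} v (hmem v hv {i}) P φ hP hφ
    have e2 := hB1 {i} v (hmem v hv {i}) P' φ' hP' hφ'
    rw [hgv, Finset.sum_singleton] at e1 e2
    have e3 : ∀ c d : ZMod 2, (c = 0 ↔ d = 0) → c = d := by decide
    exact e3 _ _ (e1.trans e2.symm)
  let D : Set (HeightOneSpectrum (𝓞 F)) :=
    {v | ∃ (P : Ideal ZZ) (φ : Gal(Om/ℚ)), Ab F P v ∧ IsFr F P φ ∧ ∀ i, h i φ = h i φ₀}
  by_contra hcon
  -- density zero
  have hD0 : ZD.Dn F (D \ B) 0 := by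
    refine ZD.Dn_subset (fun v hv => ?_) (hX.union_zero (ZD.Dn_deg F))
    by_contra hv2
    have hv3 : v ∉ X := fun hx => hv2 (Or.inl hx)
    have hv4 : (ZD.nm v).Prime := by
      by_contra hp
      exact hv2 (Or.inr hp)
    refine hcon ⟨v, hv3, hv4, fun P φ hP hφ i => ?_⟩
    obtain ⟨⟨P', φ', hP', hφ', hD⟩, hvB⟩ := hv
    rw [← hD i]
    exact hcl v hvB P φ P' φ' hP hφ hP' hφ' i
  -- the pointwise identity
  have key : ∀ (x : ℝ) (v : HeightOneSpectrum (𝓞 F)),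
      (2 : ℝ) ^ Fintype.card ι * (D \ B).indicator (fun w => (ZD.nm w : ℝ) ^ (-(1 + x))) v =
      ∑ S : Finset ι, TSel_sg (g S φ₀) *
        (2 * (TSel_A F (g S) \ B).indicator (fun w => (ZD.nm w : ℝ) ^ (-(1 + x))) v -
          (Set.univ \ B).indicator (fun w => (ZD.nm w : ℝ) ^ (-(1 + x))) v) := by
    intro x v
    by_cases hv : v ∈ B
    · rw [Set.indicator_of_notMem (fun h => h.2 hv), mul_zero]
      refine (Finset.sum_eq_zero fun S _ => ?_).symm
      rw [Set.indicator_of_notMem (fun h => h.2 hv), Set.indicator_of_notMem (fun h => h.2 hv)]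
      ring
    · obtain ⟨P, φ, hP, hφ⟩ := TSel_ex F v
      have e1 : ∀ S, 2 * (TSel_A F (g S) \ B).indicator
          (fun w => (ZD.nm w : ℝ) ^ (-(1 + x))) v -
          (Set.univ \ B).indicator (fun w => (ZD.nm w : ℝ) ^ (-(1 + x))) v =
          TSel_sg (g S φ) * (ZD.nm v : ℝ) ^ (-(1 + x)) := by
        intro S
        have e4 := hB1 S v (hmem v hv S) P φ hP hφ
        rw [Set.indicator_of_mem (s := Set.univ \ B) ⟨Set.mem_univ v, hv⟩]
        by_cases hA : v ∈ TSel_A F (g S)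
        · rw [Set.indicator_of_mem (s := TSel_A F (g S) \ B) ⟨hA, hv⟩, TSel_sg, if_pos (e4.2 hA)]
          ring
        · rw [Set.indicator_of_notMem (fun h => hA h.1), TSel_sg, if_neg (fun h => hA (e4.1 h))]
          ring
      have e2 : v ∈ D ↔ ∀ i, h i φ₀ = h i φ := by
        constructor
        · rintro ⟨P', φ', hP', hφ', hD⟩ i
          rw [← hD i]
          exact hcl v hv P' φ' P φ hP' hφ' hP hφ i
        · intro hi
          exact ⟨P, φ, hP, hφ, fun i => (hi i).symm⟩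
      have e3 : ∑ S : Finset ι, TSel_sg (g S φ₀) *
          (TSel_sg (g S φ) * (ZD.nm v : ℝ) ^ (-(1 + x))) =
          (∑ S : Finset ι, TSel_sg (g S φ₀) * TSel_sg (g S φ)) * (ZD.nm v : ℝ) ^ (-(1 + x)) := by
        rw [Finset.sum_mul]
        exact Finset.sum_congr rfl fun S _ => by ring
      simp only [e1]
      rw [e3]
      simp only [hgv]
      rw [TSel_expand]
      split_ifs with hi
      · rw [Set.indicator_of_mem (s := D \ B) ⟨e2.2 hi, hv⟩]
      · rw [Set.indicator_of_notMem (fun h' => hi (e2.1 h'.1)), mul_zero, zero_mul]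
  have hsum : ∀ x : ℝ, 0 < x → (2 : ℝ) ^ Fintype.card ι * ZD.pS F (D \ B) x =
      ∑ S : Finset ι, TSel_sg (g S φ₀) *
        (2 * ZD.pS F (TSel_A F (g S) \ B) x - ZD.pS F (Set.univ \ B) x) := by
    intro x hx
    have s1 := (ZD.summable_ind (K := F) (D \ B) hx).hasSum.mul_left ((2 : ℝ) ^ Fintype.card ι)
    have s2 := hasSum_sum (s := (Finset.univ : Finset (Finset ι))) fun S _ =>
      (((ZD.summable_ind (K := F) (TSel_A F (g S) \ B) hx).hasSum.mul_left 2).sub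
        (ZD.summable_ind (K := F) (Set.univ \ B) hx).hasSum).mul_left (TSel_sg (g S φ₀))
    rw [funext (key x)] at s1
    exact s1.unique s2
  -- the densities
  obtain ⟨C0, hC0⟩ := hD0
  choose C1 hC1 using fun S => TSel_cut (hB2 S) hB
  obtain ⟨C2, hC2⟩ := TSel_cut (ZD.Dn_univ (K := F)) hB
  have hg0 : g ∅ = 0 := Finset.sum_empty
  have hlow : ∀ x : ℝ, 0 < x → x ≤ 1 → Real.log (1 / x) ≤
      (2 : ℝ) ^ Fintype.card ι * C0 + ∑ S : Finset ι, (2 * C1 S + C2) := by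
    intro x h0 h1
    have hl : 0 ≤ Real.log (1 / x) := Real.log_nonneg (by
      rw [le_div_iff₀ h0, one_mul]
      exact h1)
    have t1 : ∀ S : Finset ι, (if S = ∅ then Real.log (1 / x) else 0) - (2 * C1 S + C2) ≤
        TSel_sg (g S φ₀) *
          (2 * ZD.pS F (TSel_A F (g S) \ B) x - ZD.pS F (Set.univ \ B) x) := by
      intro S
      have a1 := abs_le.1 (hC1 S x h0 h1)
      have a2 := abs_le.1 (hC2 x h0 h1)
      by_cases hS : g S = 0
      · rw [if_pos hS] at a1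
        have a3 : TSel_sg (g S φ₀) = 1 := by
          rw [hS]
          exact TSel_sg_zero
        rw [a3]
        split_ifs <;> linarith [a1.1, a1.2, a2.1, a2.2]
      · rw [if_neg hS] at a1
        have hS' : S ≠ ∅ := fun h => hS (by rw [h, hg0])
        rw [if_neg hS']
        have a3 : TSel_sg (g S φ₀) = 1 ∨ TSel_sg (g S φ₀) = -1 := by
          unfold TSel_sg
          split_ifs
          · exact Or.inl rfl
          · exact Or.inr rfl
        rcases a3 with a3 | a3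
        · rw [a3]
          linarith [a1.1, a1.2, a2.1, a2.2]
        · rw [a3]
          linarith [a1.1, a1.2, a2.1, a2.2]
    have t2 := Finset.sum_le_sum fun S (_ : S ∈ (Finset.univ : Finset (Finset ι))) => t1 S
    rw [← hsum x h0, Finset.sum_sub_distrib, Finset.sum_ite_eq' Finset.univ (∅ : Finset ι),
      if_pos (Finset.mem_univ _)] at t2
    have t3 := abs_le.1 (hC0 x h0 h1)
    have t4 : (2 : ℝ) ^ Fintype.card ι * ZD.pS F (D \ B) x ≤ (2 : ℝ) ^ Fintype.card ι * C0 := by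
      refine mul_le_mul_of_nonneg_left ?_ (by positivity)
      linarith [t3.2]
    linarith
  set M := (2 : ℝ) ^ Fintype.card ι * C0 + ∑ S : Finset ι, (2 * C1 S + C2) with hM
  have h2 := hlow (Real.exp (-(|M| + 1))) (Real.exp_pos _)
    (Real.exp_le_one_iff.2 (by linarith [abs_nonneg M]))
  rw [one_div, Real.log_inv, Real.log_exp, neg_neg] at h2
  linarith [le_abs_self M]

end Pool.Agent.DI
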