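import Pool.Agent.Lib.DI.T.TFl
import Pool.Agent.Lib.DI.T.TCut
import Pool.Agent.Lib.DI.T.TBad
import Pool.Agent.Lib.DI.T.TSel
import Pool.Agent.Lib.DI.T.TCj
import Pool.Agent.Lib.DI.T.TDis
import Pool.Agent.Lib.DI.T.TKa
import Pool.Agent.Lib.DI.T.TRel
import Pool.Agent.Lib.DI.T.TQu
import Pool.Agent.Lib.DI.T.TH
import Pool.Agent.Lib.DI.T.Kap
import Pool.Agent.Lib.DI.T.AsmH

/-!
# Theorem DI, part T: Theorem H in the abstract form, and the assembly of `S_H`
-/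

set_option autoImplicit false

noncomputable section

namespace Pool.Agent.DI

/-- **Theorem H, abstract form.** -/
theorem th : S_TH :=
  tTH (tTQu (tTBad tTFl tTCut) (tTSel tTFl) tTCj tTDis tTKa tTRel) tTKa

/-- **Theorem H** from the construction of H3, H4 and parts E and G. -/
theorem tHmain (hKK : S_KK) (hG3 : S_G3) (hE1 : S_E1) (hE4 : S_E4) (hE6 : S_E6)
    (hE8 : S_E8) (hE9 : S_E9) (hUHN : S_UHN) (hUNm : S_UNm) : S_H :=
  asmH th hKK hG3 hE1 hE4 hE6 hE8 hE9 hUHN hUNm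

end Pool.Agent.DI
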