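import Pool.Agent.Lib.DI.Val
import Pool.Agent.Lib.FW.RDefs

/-!
# Theorem DI, part T: the valuation `vl` and the valuation rings `V_P`

`F` is a number field in `Om`, `v` a prime of `F`, `Q` a prime of `ZZ` above `v`.
-/

set_option autoImplicit false

open scoped Pointwise nonZeroDivisors

noncomputable section

namespace Pool.Agent.DI

open Pool.Agent.MuZ Pool.Agent.FW NumberField IsDedekindDomain

section vl

variable {K : Type} [Field K] [NumberField K] (v : HeightOneSpectrum (𝓞 K))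

theorem vl_val (x : K) (hx : x ≠ 0) : v.valuation K x = WithZero.exp (-(vl K v x)) := by
  classical
  unfold vl
  obtain ⟨r, s, hs, rfl⟩ := IsFractionRing.div_surjective (A := 𝓞 K) x
  have hs0 : s ≠ 0 := nonZeroDivisors.ne_zero hs
  have hr0 : r ≠ 0 := by
    rintro rfl
    rw [map_zero, zero_div] at hx
    exact hx rfl
  have h1 : FractionalIdeal.spanSingleton (𝓞 K)⁰ (algebraMap (𝓞 K) K r / algebraMap (𝓞 K) K s) =
      FractionalIdeal.spanSingleton (𝓞 K)⁰ (algebraMap (𝓞 K) K s)⁻¹ *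
        ((Ideal.span {r} : Ideal (𝓞 K)) : FractionalIdeal (𝓞 K)⁰ K) := by
    rw [FractionalIdeal.coeIdeal_span_singleton, FractionalIdeal.spanSingleton_mul_spanSingleton,
      div_eq_inv_mul]
  rw [FractionalIdeal.count_well_defined K v (FractionalIdeal.spanSingleton_ne_zero_iff.2 hx) h1,
    map_div₀, HeightOneSpectrum.valuation_of_algebraMap, HeightOneSpectrum.valuation_of_algebraMap,
    v.intValuation_if_neg hr0, v.intValuation_if_neg hs0, ← WithZero.exp_sub]
  congr 1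
  ring

theorem vl_eq_iff (x : K) (hx : x ≠ 0) (n : ℤ) :
    vl K v x = n ↔ v.valuation K x = WithZero.exp (-n) := by
  rw [vl_val v x hx, WithZero.exp_inj]
  constructor
  · rintro rfl; rfl
  · intro h; linarith

theorem vl_mul (x y : K) (hx : x ≠ 0) (hy : y ≠ 0) : vl K v (x * y) = vl K v x + vl K v y := by
  rw [vl_eq_iff v _ (mul_ne_zero hx hy), map_mul, vl_val v x hx, vl_val v y hy, ← WithZero.exp_add]
  congr 1
  ring

theorem vl_one : vl K v 1 = 0 := by
  rw [vl_eq_iff v _ one_ne_zero, map_one, neg_zero, WithZero.exp_zero]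

theorem vl_inv (x : K) (hx : x ≠ 0) : vl K v x⁻¹ = -vl K v x := by
  have h := vl_mul v x x⁻¹ hx (inv_ne_zero hx)
  rw [mul_inv_cancel₀ hx, vl_one] at h
  linarith

theorem vl_div (x y : K) (hx : x ≠ 0) (hy : y ≠ 0) : vl K v (x / y) = vl K v x - vl K v y := by
  rw [div_eq_mul_inv, vl_mul v x _ hx (inv_ne_zero hy), vl_inv v y hy]
  ring

theorem vl_pow (x : K) (hx : x ≠ 0) (n : ℕ) : vl K v (x ^ n) = n * vl K v x := by
  induction n with
  | zero => rw [pow_zero, vl_one]; simp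
  | succ n ih =>
    rw [pow_succ, vl_mul v _ _ (pow_ne_zero n hx) hx, ih]
    push_cast
    ring

theorem vl_zpow (x : K) (hx : x ≠ 0) (n : ℤ) : vl K v (x ^ n) = n * vl K v x := by
  cases n with
  | ofNat n => rw [Int.ofNat_eq_natCast, zpow_natCast, vl_pow v x hx]
  | negSucc n =>
    rw [zpow_negSucc, vl_inv v _ (pow_ne_zero _ hx), vl_pow v x hx, Int.negSucc_eq]
    push_cast
    ring

theorem vl_neg (x : K) (hx : x ≠ 0) : vl K v (-x) = vl K v x := by
  rw [vl_eq_iff v _ (neg_ne_zero.2 hx), Valuation.map_neg, vl_val v x hx]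

/-- A uniformizer. -/
theorem vl_unif : ∃ t : K, t ≠ 0 ∧ vl K v t = 1 := by
  obtain ⟨t, ht⟩ := v.valuation_exists_uniformizer K
  have ht0 : t ≠ 0 := by
    rintro rfl
    rw [map_zero] at ht
    exact WithZero.coe_ne_zero ht.symm
  exact ⟨t, ht0, (vl_eq_iff v t ht0 1).2 ht⟩

end vl

section ab

variable {F : IntermediateField ℚ Om} [NumberField F] {v : HeightOneSpectrum (𝓞 F)} {Q : Ideal ZZ}

theorem vl_vp (h : Ab F Q v) {x : F} (hx : x ≠ 0) (h0 : 0 ≤ vl F v x) : VP Q (x : Om) := by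
  have h1 : v.valuation F x ≤ 1 := by
    rw [vl_val v x hx, ← WithZero.exp_zero, WithZero.exp_le_exp]
    linarith
  obtain ⟨a, d, hd⟩ := v.exists_primeCompl_mul_eq_of_integer _ h1
  refine ⟨iO F a, iO F d, ?_, ?_⟩
  · intro h2
    exact d.2 ((SetLike.ext_iff.1 h.2.2 (d : 𝓞 F)).2 h2)
  · have h3 := congrArg (fun y : F => (y : Om)) hd
    exact h3

theorem vl_mp (h : Ab F Q v) {x : F} (hx : x ≠ 0) (h0 : 0 < vl F v x) : MP Q (x : Om) := by
  have h1 : v.valuation F x < 1 := by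
    rw [vl_val v x hx, ← WithZero.exp_zero, WithZero.exp_lt_exp]
    linarith
  obtain ⟨a, d, hd⟩ := v.exists_primeCompl_mul_eq_of_integer _ h1.le
  refine ⟨iO F a, iO F d, ?_, ?_, ?_⟩
  · have h4 : v.valuation F (algebraMap (𝓞 F) F a) < 1 := by
      rw [← hd, map_mul]
      have h5 : v.valuation F (algebraMap (𝓞 F) F (d : 𝓞 F)) ≤ 1 := v.valuation_le_one (d : 𝓞 F)
      exact lt_of_le_of_lt (mul_le_of_le_one_right' h5) h1
    have h6 := (HeightOneSpectrum.valuation_lt_one_iff_mem (K := F) v a).1 h4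
    rw [h.2.2] at h6
    exact h6
  · intro h2
    exact d.2 ((SetLike.ext_iff.1 h.2.2 (d : 𝓞 F)).2 h2)
  · have h3 := congrArg (fun y : F => (y : Om)) hd
    exact h3

theorem vl_up (h : Ab F Q v) {x : F} (hx : x ≠ 0) : UP Q (x : Om) ↔ vl F v x = 0 := by
  have hP : Q.IsPrime := h.1
  have hinv : ((x⁻¹ : F) : Om) = (x : Om)⁻¹ := rfl
  constructor
  · intro hu
    rcases lt_trichotomy (vl F v x) 0 with h1 | h1 | h1
    · exfalso
      have h2 : MP Q ((x⁻¹ : F) : Om) := vl_mp h (inv_ne_zero hx) (by rw [vl_inv v x hx]; linarith)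
      rw [hinv] at h2
      exact (UP.inv hu).2 h2
    · exact h1
    · exact absurd (vl_mp h hx h1) hu.2
  · intro h0
    rw [UP.iff]
    refine ⟨fun h1 => hx (Subtype.ext h1), vl_vp h hx h0.ge, ?_⟩
    rw [← hinv]
    exact vl_vp h (inv_ne_zero hx) (by rw [vl_inv v x hx, h0]; exact neg_zero.ge)

theorem vp_vl (h : Ab F Q v) {x : F} (hx : x ≠ 0) : VP Q (x : Om) ↔ 0 ≤ vl F v x := by
  have hP : Q.IsPrime := h.1
  constructor
  · intro hv
    by_contra h1
    have h2 : MP Q ((x⁻¹ : F) : Om) :=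
      vl_mp h (inv_ne_zero hx) (by rw [vl_inv v x hx]; linarith)
    have h3 : MP Q ((x : Om) * ((x⁻¹ : F) : Om)) := MP.mul_left hv h2
    have h4 : (x : Om) * ((x⁻¹ : F) : Om) = 1 := mul_inv_cancel₀ fun h5 => hx (Subtype.ext h5)
    rw [h4] at h3
    exact MP.one_not h3
  · exact vl_vp h hx

theorem mp_vl (h : Ab F Q v) {x : F} (hx : x ≠ 0) : MP Q (x : Om) ↔ 0 < vl F v x := by
  have hP : Q.IsPrime := h.1
  constructor
  · intro hm
    have h1 := (vp_vl h hx).1 hm.vp
    refine lt_of_le_of_ne h1 fun h2 => ?_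
    exact ((vl_up h hx).2 h2.symm).2 hm
  · exact vl_mp h hx

end ab

end Pool.Agent.DI
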