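import Pool.Agent.Lib.FW.R1.Main

/-!
# DI, part T, module R1c: the norm index of an unramified quadratic extension, totally complex fields

The case `p = 2` of `S_R1` for a totally complex field (`Pool/Agent/Lib/FW/R1`, where `p` is odd).
-/

open scoped Pointwise NumberField nonZeroDivisors

noncomputable section

namespace Pool.Agent.DI

open Pool.Agent.MuZ Pool.Agent.FW NumberField IsDedekindDomain

/-- Over a totally complex field every extension is unramified at infinity. -/
theorem unram_inf (K L : Type) [Field K] [Field L] [Algebra K L] [IsTotallyComplex K] :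
    IsUnramifiedAtInfinitePlaces K L where
  isUnramified _ := InfinitePlace.isUnramified_iff.2 (Or.inr (IsTotallyComplex.isComplex _))

section

variable {K L : Type} [Field K] [NumberField K] [Field L] [NumberField L] [Algebra K L]

private theorem run_one (x : Additive (𝓞 L)ˣ) : unMap (1 : Gal(L/K)) x = x := by
  apply Additive.toMul.injective
  ext
  rfl

private theorem run_mul (s t : Gal(L/K)) (x : Additive (𝓞 L)ˣ) :
    unMap (s * t) x = unMap s (unMap t x) := by
  apply Additive.toMul.injective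
  ext
  rfl

private theorem run_iter (s : Gal(L/K)) (n : ℕ) (x : Additive (𝓞 L)ˣ) :
    (unMap s)^[n] x = unMap (s ^ n) x := by
  induction n with
  | zero => rw [Function.iterate_zero, id, pow_zero, run_one]
  | succ n ih => rw [Function.iterate_succ_apply', ih, ← run_mul, pow_succ']

/-- The inclusion of the units. -/
private def runJ (L : Type) [Field L] [NumberField L] : Additive (𝓞 L)ˣ →+ Additive Lˣ :=
  MonoidHom.toAdditive (Units.map (algebraMap (𝓞 L) L).toMonoidHom)

private theorem runJ_coe (x : Additive (𝓞 L)ˣ) :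
    ((Additive.toMul (runJ L x) : Lˣ) : L) = algebraMap (𝓞 L) L ((x.toMul : (𝓞 L)ˣ) : 𝓞 L) := rfl

private theorem runJ_inj : Function.Injective (runJ L) := by
  intro x y h
  apply Additive.toMul.injective
  apply Units.ext
  apply FaithfulSMul.algebraMap_injective (𝓞 L) L
  rw [← runJ_coe, ← runJ_coe, h]

private theorem runJ_un (s : Gal(L/K)) (x : Additive (𝓞 L)ˣ) :
    runJ L (unMap s x) = frV s (runJ L x) := by
  apply Additive.toMul.injective
  ext
  rfl

private theorem run_mem {x : Additive Lˣ} (hx : frD L x = 0) :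
    ∃ a : 𝓞 L, algebraMap (𝓞 L) L a = ((Additive.toMul x : Lˣ) : L) := by
  have h1 : toF (frD L x) = 1 := by
    rw [hx]
    rfl
  rw [toF_frD] at h1
  have h2 := FractionalIdeal.mem_spanSingleton_self (𝓞 L)⁰ ((Additive.toMul x : Lˣ) : L)
  rw [h1, FractionalIdeal.mem_one_iff] at h2
  exact h2

private theorem runJ_range : (runJ L).range = (frD L).ker := by
  ext x
  rw [AddMonoidHom.mem_range, AddMonoidHom.mem_ker]
  constructor
  · rintro ⟨u, rfl⟩
    apply toF_inj
    rw [toF_frD, runJ_coe]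
    have h0 : toF (0 : Additive (FractionalIdeal (𝓞 L)⁰ L)ˣ) = 1 := rfl
    rw [h0, ← FractionalIdeal.coeIdeal_span_singleton, Ideal.span_singleton_eq_top.2 u.toMul.isUnit]
    exact FractionalIdeal.coeIdeal_top (𝓞 L)⁰
  · intro hx
    obtain ⟨a, ha⟩ := run_mem hx
    obtain ⟨b, hb⟩ := run_mem (x := -x) (by rw [map_neg, hx, neg_zero])
    have hab : a * b = 1 := by
      apply FaithfulSMul.algebraMap_injective (𝓞 L) L
      rw [map_mul, ha, hb, map_one, toMul_neg, ← Units.val_mul, mul_inv_cancel, Units.val_one]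
    refine ⟨Additive.ofMul ⟨a, b, hab, by rw [mul_comm, hab]⟩, ?_⟩
    apply Additive.toMul.injective
    apply Units.ext
    rw [runJ_coe]
    exact ha

end


/-- The Herbrand quotient of the units of `L`, for extensions unramified at infinity. -/
private theorem r1cUn (K L : Type) [Field K] [NumberField K] [Field L] [NumberField L] [Algebra K L]
    [IsGalois K L] (hinf : IsUnramifiedAtInfinitePlaces K L) (s : Gal(L/K))
    (hs : ∀ g : Gal(L/K), g ∈ Subgroup.zpowers s) (hp : (Module.finrank K L).Prime) :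
    Hbq (Module.finrank K L) (frV s) (frD L) := by
  have h1 : S_RHq := tRHq (tRHb (tHLem tHCyc tHQm tHQn) tRHa) (tRHc tHQn)
  have h2 : S_RTr := tRTr
  have h4 : S_HFx := tHFx
  have hsp : s ^ Module.finrank K L = 1 := by
    rw [← IsGalois.card_aut_eq_finrank]
    exact pow_card_eq_one'
  have hit : ∀ x : Additive (𝓞 L)ˣ, ((unMap s)^[Module.finrank K L]) x = x := by
    intro x
    rw [run_iter, hsp, run_one]
  have hrk : Module.finrank ℤ (Additive (𝓞 L)ˣ) + 1 = Module.finrank K L *
      (Module.finrank ℤ (unMap s - AddMonoidHom.id (Additive (𝓞 L)ˣ)).ker + 1) := by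
    rw [h4 K L s hs]
    have h := IsUnramifiedAtInfinitePlaces.card_infinitePlace K L
    have hL := NumberField.Units.finrank_eq (K := L)
    have hK := NumberField.Units.finrank_eq (K := K)
    have hLp : 0 < Fintype.card (NumberField.InfinitePlace L) := Fintype.card_pos
    have hKp : 0 < Fintype.card (NumberField.InfinitePlace K) := Fintype.card_pos
    unfold NumberField.Units.rank at hL hK
    have e1 : Module.finrank ℤ (Additive (𝓞 L)ˣ) + 1 =
        Fintype.card (NumberField.InfinitePlace L) := by omega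
    have e2 : Module.finrank ℤ (Additive (𝓞 K)ˣ) + 1 =
        Fintype.card (NumberField.InfinitePlace K) := by omega
    rw [e1, e2, h, mul_comm]
  obtain ⟨a1, a2⟩ := h2 (Additive (𝓞 L)ˣ) (Additive Lˣ) (Module.finrank K L) (runJ L) (unMap s)
    (frV s) runJ_inj (runJ_un s)
  obtain ⟨b1, b2⟩ := h1 (Additive (𝓞 L)ˣ) (Module.finrank K L) (unMap s) hp hit hrk
  unfold Hbq
  rw [runJ_range] at a1 a2
  rw [a1, a2]
  exact ⟨b1, b2⟩

/-- The theorem for abstract number fields. -/
private theorem r1cAbs (p : ℕ) (K L : Type) [Field K] [NumberField K] [Field L] [NumberField L]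
    [Algebra K L] [IsGalois K L] (hinf : IsUnramifiedAtInfinitePlaces K L)
    (hdeg : Module.finrank K L = p) (hp : p.Prime) (htriv : TrivIn K L) :
    ∃ a : HeightOneSpectrum (𝓞 K) → ZMod p, ClCh p K a ∧ a ≠ 0 ∧ ∀ v : HeightOneSpectrum (𝓞 K),
      (∃ w : Ideal (𝓞 L), w.IsPrime ∧ w ≠ ⊥ ∧ w.comap (algebraMap (𝓞 K) (𝓞 L)) = v.asIdeal ∧
        ∀ x : 𝓞 L, x ^ Nat.card (𝓞 K ⧸ v.asIdeal) - x ∈ w) → a v = 0 := by
  have h1 : S_RCh := tRCh tRLin (tRIq tRFin tRCp tRAm)
  subst hdeg
  have hcard : Nat.card Gal(L/K) = Module.finrank K L := IsGalois.card_aut_eq_finrank K L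
  have : Fact (Module.finrank K L).Prime := ⟨hp⟩
  have : IsCyclic Gal(L/K) := isCyclic_of_prime_card hcard
  obtain ⟨s, hs⟩ := IsCyclic.exists_generator (α := Gal(L/K))
  have hInv : InvExt K L := tHInv K L htriv
  obtain ⟨χ, hχ0, hχ1, hχ2⟩ := h1 (Module.finrank K L) (Additive Lˣ)
    (Additive (FractionalIdeal (𝓞 L)⁰ L)ˣ) (Additive (FractionalIdeal (𝓞 K)⁰ K)ˣ) (frV s) (frI s)
    (frD L) (frE K L) hp (tRHB K L s hs) (r1cUn K L hinf s hs hp) (frI_frE s) (tRInv K L s hs hInv)
  have hpr : ∀ x : Additive Kˣ, χ (frD K x) = 0 := by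
    intro x
    refine hχ1 _ _ ?_ (frE_frD x)
    apply Additive.toMul.injective
    ext
    exact s.commutes _
  obtain ⟨h9, h10⟩ := tRFac K (Module.finrank K L) χ hpr
  refine ⟨fun v => χ (prU v), h9, fun h0 => hχ0 (h10 fun v => congrFun h0 v), ?_⟩
  rintro v ⟨w, hw1, hw2, hw3, hw4⟩
  obtain ⟨y, hy⟩ := tRSp2 K L (Module.finrank K L) s v w hw2
    (tRSpl K L s hs htriv v.asIdeal w hw1 hw2 hw3 hw4)
  exact hχ2 _ y hy

/-- **R1c.** Every nonzero unramified character of order `p` (`p = 2` allowed) of the Galois group of a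
totally complex number field gives a nonzero class character which vanishes at the primes which split. -/
theorem tR1c (p : ℕ) [hp : Fact p.Prime] (K : IntermediateField ℚ Om) [hK : NumberField K]
    [IsTotallyComplex K] (g : Gal(Om/ℚ) → ZMod p) (hg : g ∈ VV p Inr K.fixingSubgroup)
    (hg0 : g ≠ 0) :
    ∃ a : HeightOneSpectrum (𝓞 K) → ZMod p, ClCh p K a ∧ a ≠ 0 ∧ ∀ v, Spl p K g v → a v = 0 := by
  obtain ⟨M, hKM, hMfin, hst, hker⟩ := tRFld p K g hg
  obtain ⟨L, iF, iN, iA, iG, hrank, htriv, hspl⟩ :=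
    tRExt tIne p K M hKM hK hMfin hst g hg hg0 hker
  obtain ⟨a, ha1, ha2, ha3⟩ := r1cAbs p K L (unram_inf K L) hrank hp.out htriv
  exact ⟨a, ha1, ha2, fun v hv => ha3 v (hspl v hv)⟩

end Pool.Agent.DI
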