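import Pool.Agent.Lib.DI.Defs
import Pool.Agent.Lib.DI.T.R1c
import Pool.Agent.Lib.FW.SpecR2
import Pool.Agent.Lib.FW.R.Lie
import Pool.Agent.Lib.FW.R.FrE
import Pool.Agent.Lib.FW.R.FrU
import Pool.Agent.Lib.FW.R2.Hom
import Pool.Agent.Lib.FW.R2.PB
import Pool.Agent.Lib.FW.R2.LB
import Pool.Agent.Lib.FW.R2.ZA
import Pool.Agent.Lib.FW.R2.ZB

/-!
# Theorem DI, part T (H1, H2, H5, H6 of note 4054): Thaine's argument for `p = 2`, abstract part

Author helper8. `F` is a number field in `Om`, `v` a prime of `F`, `Q` a prime of `ZZ` above `v`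
(`Ab F Q v`), `φ` a Frobenius element at `Q` over `F` (`IsFr F Q φ`, so `φ ∈ F.fixingSubgroup`). Definitions: `DI/Defs.lean` (`VP`, `MP`,
`UP`, `kap`, `sqr`), `FW/RDefs.lean` (`vl`, `ClCh`, `Inr`, `Ab`, `IsFr`, `Spl`), `MuZ/Spec.lean` (`VV`, `Loc`), `ZD/Basic.lean`
(`ZD.nm`, `ZD.pS`, `ZD.Dn`: `Dn K A d` means `|pS K A x - d log (1/x)| ≤ C` for `0 < x ≤ 1`).

PROVED theorems which may be used (all imported by this file): `tLie : S_Lie`, `tFrE : S_FrE`, `tFrU : S_FrU` (primes above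
and below; existence and uniqueness of Frobenius elements), `tR1c` (file `DI/T/R1c.lean`), `tHom : S_Hom`,
`tPB (tLB tZA tZB) : S_PB`, `ZD.Dn_Spl`, `ZD.Dn_univ`, `ZD.Dn_deg`, `ZD.Dn.add`, `ZD.Dn.sdiff`, `ZD.Dn.union_zero`, `ZD.Dn.congr`,
`ZD.Dn_subset`, `ZD.Dn_zero_of_le`, `ZD.Dn_finite`, `ZD.finite_mem`, `ZD.finite_ram`, `ZD.mem_Spl_of_nm`, `ZD.nm_eq_of_mem_Spl`,
`ZD.tendsto_log_inv`, `ZD.finite_nm_mem`, `ZD.nm_mem`.

RULES: every `S_X : Prop` of this file is to be proved as `theorem tX : S_X` (`S_TFl` as `tTFl` etc.; the statements named under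
USES are explicit hypotheses of the theorem, in this order) in `Pool/Agent/Lib/DI/T/X.lean` (`TFl.lean` etc.), first lines
`import Pool.Agent.Lib.DI.T.SpecT`, `set_option autoImplicit false`, `open scoped Pointwise nonZeroDivisors`,
`noncomputable section`, `namespace Pool.Agent.DI`, `open Pool.Agent.MuZ Pool.Agent.FW NumberField IsDedekindDomain`.
Auxiliary declarations `private`.
-/

open scoped Pointwise nonZeroDivisors

noncomputable section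

namespace Pool.Agent.DI

open Pool.Agent.MuZ Pool.Agent.FW NumberField IsDedekindDomain

/-! ## Characters and densities -/

/-- **TFl** (150 lines). USES: nothing. The field of a quadratic character (ramification allowed).
PROOF. Adapt `FW/R2/Fld.lean` (`tFld`) and `FW/R1/RFld.lean` (there for `g ∈ VV p Inr ..`; the inertia condition is not used
for the construction of the field). `W = {σ ∈ K.fixingSubgroup : h σ = 0}` is open (contains `O ⊓ K.fixingSubgroup`), of index 2 in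
`K.fixingSubgroup` (`h ≠ 0`), `M = fixedField W`, `M.fixingSubgroup = W`, `K ≤ M`, `M` finite over `ℚ`, stable under
`K.fixingSubgroup`; `L = M` as an extension of `K`: Galois, and `finrank K L = 2` (the index of `L.fixingSubgroup` in `Gal(Om/K)` is the
cardinality of the range of `σ ↦ h σ`, which is `ZMod 2`). Choose `θ ∈ 𝓞 M` which is not fixed by some `s ∈ K.fixingSubgroup` (`h s = 1`), `δ = s θ - θ ≠ 0` (in `𝓞 M`); every element of `K.fixingSubgroup` outside of `W`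
acts on `M` as `s`. `B = {v | ∃ w ∈ ZD.abv L v, w.asIdeal ∣ differentIdeal ..} ∪ {w.under .. | δ ∈ w.asIdeal}`: finite (`ZD.finite_ram`, `ZD.finite_mem`, image of a finite set).
Let `v ∉ B`, `P` above `v`, `σ` a Frobenius element at `P` over `K`, `w` = the prime of `M` below `P` (`tLie.2.1`), it is above `v`.
(←) `v ∈ ZD.Spl K L`: `N w = N v` (`ZD.nm_eq_of_mem_Spl`), `τ` a Frobenius element at `P` over `M` (`tFrE`); `τ ∈ W`. `τ` and `σ` act in the same way modulo `P`: `τ x ≡ x ^ N w = x ^ N v ≡ σ x`, so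
`ρ = τ⁻¹ σ ∈ P.inertia ∩ K.fixingSubgroup` (see `FrU_ker` in `FW/R/FrU.lean`). If `h ρ ≠ 0` then `ρ θ = s θ` and `δ = ρ θ - θ ∈ P ∩ 𝓞 M = w`, a contradiction to `v ∉ B`. So `h ρ = 0`, `h σ = h τ + h ρ = 0`.
(→) `h σ = 0`: `σ ∈ W` fixes `M`, so `x ^ N v - x ∈ w` for all `x ∈ 𝓞 M`, so `N w ≤ N v` (`ZD.nm_le_of_pow` in `ZD/Frob.lean`; residue field), and `v ∈ ZD.Spl K L` by `ZD.mem_Spl_of_nm` (`v` is not in the set of `ZD.finite_ram`). -/
def S_TFl : Prop :=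
  ∀ (K : IntermediateField ℚ Om) [NumberField K] (h : Gal(Om/ℚ) → ZMod 2),
    h ∈ VV 2 ∅ K.fixingSubgroup → h ≠ 0 →
    ∃ (L : Type) (_ : Field L) (_ : NumberField L) (_ : Algebra K L), IsGalois K L ∧
      Module.finrank K L = 2 ∧ ∃ B : Set (HeightOneSpectrum (𝓞 K)), B.Finite ∧
        ∀ v ∉ B, ∀ (P : Ideal ZZ) (σ : Gal(Om/ℚ)), Ab K P v → IsFr K P σ →
          (h σ = 0 ↔ v ∈ ZD.Spl K L)

/-- **TCut** (100 lines). USES: nothing. The zeros of one class character of order 2 have upper density at most `1/2`.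
PROOF. Simplify `FW/R2/Cut.lean`. `φ : ClassGroup (𝓞 K) →* Multiplicative (ZMod 2)` from `tHom` for `p = 2`; `χ : ClassGroup (𝓞 K) →* ℂˣ`,
`χ Cl = 1` if `φ Cl = 1` and `-1` otherwise (compose with the homomorphism `Multiplicative (ZMod 2) →* ℂˣ`, e.g. from
`ZMod.stdAddChar` as in `Cut.lean`, or by cases). At `mk0 (pr v)`: `Re χ = 1` if `a v = 0`, `-1` if `a v = 1` (`a v ≠ 0`). `χ ≠ 1` because
`a v ≠ 0` for some `v`. `tPB (tLB tZA tZB)` gives `∑' v, Re χ(v) N v^(-(1+x)) ≤ C`, and `∑' v N v^(-(1+x)) = pS K univ x ≤ log (1/x) + C'`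
(`ZD.Dn_univ`). The sum of the two series is `2 pS K {v | a v = 0} x` (`Re χ(v) + 1 = 2` or `0`; `Summable.tsum_add`, `ZD.summable_all`). -/
def S_TCut : Prop :=
  ∀ (K : Type) [Field K] [NumberField K] (a : HeightOneSpectrum (𝓞 K) → ZMod 2), ClCh 2 K a → a ≠ 0 →
    ∃ C : ℝ, ∀ x : ℝ, 0 < x → x ≤ 1 → 2 * ZD.pS K {v | a v = 0} x ≤ Real.log (1 / x) + C

/-- **TBad** (120 lines). USES: `S_TFl`, `S_TCut`. The class character of an unramified character, outside of a set of density zero.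
PROOF. If `g = 0` take `a = 0` (the set is empty). Let `g ≠ 0`. `g ∈ VV 2 Inr F.fixingSubgroup` and `g ∈ VV 2 ∅ ..` (weaker conditions; `Loc 2`
contains all inertia groups). `a` from `tR1c` (`p = 2`): `ClCh 2 F a`, `a ≠ 0`, `a v = 0` whenever `Spl 2 F g v`. Let `2 ∈ v`: choose `P` above `v`
(`tLie.1`), `2 ∈ P`, and a Frobenius element `σ` at `P` (`tFrE`); `σ` is in the stabiliser of `P` (`σ x ∈ P` iff `x ^ q ∈ P` iff `x ∈ P`; see the proof of `tFrU` in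
`FW/R/FrU.lean`), so `g σ = 0` (`Loc 2`) and `Spl 2 F g v`, `a v = 0`. Now `L`, `B` from `S_TFl` for `h = g`, `Z = {v | a v = 0}`, `S = ZD.Spl F L`.
`S \ B ⊆ Z` (for `v ∈ S \ B` every Frobenius element has `g σ = 0`, and one exists). Let `X` be the set of the statement: if `v ∈ X`, `v ∉ B`, with `P`, `σ`,
`a v ≠ g σ`: if `g σ = 0` then `Spl 2 F g v` and `a v = 0 = g σ`, a contradiction; so `g σ ≠ 0`, `g σ = 1`, `a v = 0`, `v ∉ S`. So
`X ⊆ (Z \ S) ∪ B`. `pS (Z \ S) x ≤ pS Z x - pS S x + pS B x`: `(Z \ S)` and `S \ B` are disjoint subsets of `Z`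
(use `ZD.pS_mono`, `ZD.pS_finite`, and additivity for disjoint sets as in the proof of `ZD.Dn.add`). With
`2 pS Z ≤ log (1/x) + C` and `pS S ≥ (1/2) log (1/x) - C'` (`ZD.Dn_Spl`, `finrank = 2`) it is bounded: `ZD.Dn_zero_of_le`. -/
def S_TBad : Prop :=
  ∀ (F : IntermediateField ℚ Om) [NumberField F] [IsTotallyComplex F] (g : Gal(Om/ℚ) → ZMod 2),
    g ∈ VV 2 (Loc 2) F.fixingSubgroup →
    ∃ a : HeightOneSpectrum (𝓞 F) → ZMod 2, ClCh 2 F a ∧
      (∀ v : HeightOneSpectrum (𝓞 F), (2 : 𝓞 F) ∈ v.asIdeal → a v = 0) ∧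
      ZD.Dn F {v | ∃ (P : Ideal ZZ) (σ : Gal(Om/ℚ)), Ab F P v ∧ IsFr F P σ ∧ a v ≠ g σ} 0

/-- **TSel** (200 lines). USES: `S_TFl`. Primes with prescribed values of finitely many quadratic characters.
PROOF. For a function `S : ι → ZMod 2` let `h_S = ∑ i, S i • h i ∈ VV 2 ∅ F.fixingSubgroup` (a submodule), `ε_S = (-1) ^ (h_S φ₀)`
(`= 1` or `-1`). For `h_S ≠ 0` let `L_S`, `B_S` be from `S_TFl`. Let `B` be the union of the finite sets `B_S`. `D = {v | ∃ P φ, Ab F P v ∧ IsFr F P φ ∧ ∀ i, h i φ = h i φ₀}`.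
CLAIM: for `v ∉ B` and any `P`, `φ` (with `Ab F P v`, `IsFr F P φ`): `h i φ` does not depend on `P`, `φ` (it is `0` iff `v ∈ Spl F L_i`, or `h i = 0`;
in `ZMod 2` this determines the value), so for `v ∈ D \ B` ALL `P`, `φ` satisfy `h i φ = h i φ₀`. For `v ∉ B` let `t_S(v) = 1` if `h_S = 0` or `v ∈ Spl F L_S`, and `-1` otherwise; then
`t_S(v) = (-1) ^ (h_S φ)` for all `P`, `φ` above `v`, and `∑ S, ε_S t_S(v) = ∏ i (1 + (-1) ^ (h i φ₀ + h i φ))` is `2 ^ card ι` if `v ∈ D` and `0` otherwise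
(`Finset.prod_add`/`Finset.prod_one_add`-type expansion, or: it is the sum of the values of the additive character `S ↦ (-1) ^ (∑ S i (h i φ₀ + h i φ))`, `AddChar.sum_eq_zero_of_ne_one`-type).
Summation with the weights `N v ^ (-(1+x))`: `2 ^ card ι * pS D x = ∑ S, ε_S ∑' t_S(v) N v ^ (-(1+x)) + O(1)` (the finite set `B` contributes `O(1)`), where
for `h_S = 0` (in particular `S = 0`) `ε_S = 1` and the series is `pS univ x = log (1/x) + O(1)`, and for `h_S ≠ 0` it is `2 pS (Spl F L_S) x - pS univ x = O(1)` (`ZD.Dn_Spl`, `finrank = 2`).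
So `2 ^ card ι * pS D x ≥ log (1/x) - C`. If the conclusion were false then `D ⊆ X ∪ B ∪ {v | ¬ (nm v).Prime}` and `pS D x` is bounded (`ZD.Dn_finite`, `ZD.Dn_deg`, `ZD.Dn.union_zero`, `ZD.Dn_subset`),
a contradiction to `ZD.tendsto_log_inv`.
(It may be easier to argue with `Finset`s of characters instead of coefficient vectors, or by induction on the number of characters; any proof is fine.) -/
def S_TSel : Prop :=
  ∀ (F : IntermediateField ℚ Om) [NumberField F] (ι : Type) [Fintype ι]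
    (h : ι → Gal(Om/ℚ) → ZMod 2), (∀ i, h i ∈ VV 2 ∅ F.fixingSubgroup) →
    ∀ φ₀ ∈ F.fixingSubgroup, ∀ X : Set (HeightOneSpectrum (𝓞 F)), ZD.Dn F X 0 →
    ∃ v : HeightOneSpectrum (𝓞 F), v ∉ X ∧ (ZD.nm v).Prime ∧
      ∀ (P : Ideal ZZ) (φ : Gal(Om/ℚ)), Ab F P v → IsFr F P φ → ∀ i, h i φ = h i φ₀

/-- **TCj** (120 lines). USES: nothing. Conjugates of a set of density zero.
PROOF. `σ F = F` (`σ F ≤ F` and equal degrees; `σ` restricted to `F` is an injective `ℚ`-linear map of a finite dimensional space). So `σ` induces an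
automorphism `s` of the ring `𝓞 F` with `iO F (s x) = σ • iO F x` (`RingOfIntegers.mapRingEquiv`; compare `FW/M` `Jm`, or `RingOfIntegers.mapRingHom`). Let `e v` be the prime with
`(e v).asIdeal = v.asIdeal.map s` (or `comap s.symm`); `e` is injective, `nm (e v) = nm v` (`𝓞 F ⧸ v ≃ 𝓞 F ⧸ s v`, e.g. `Ideal.quotientEquiv`; `absNorm` is the cardinality of the quotient). If `Ab F P v` and
`Ab F (σ • P) v'` then `v' = e v`: `x ∈ σ • P` iff `σ⁻¹ • x ∈ P`. So the set of the statement is contained in `A = {v | e v ∈ X}` and `pS F A x ≤ pS F X x`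
(`Summable.tsum_le_tsum_of_inj`-type lemma or: `pS A x` is the sum over `e` of the indicator function: `e` is a bijection, an `Equiv`, so `Equiv.tsum_eq` gives equality). `ZD.Dn_zero_of_le`. -/
def S_TCj : Prop :=
  ∀ (F : IntermediateField ℚ Om) [NumberField F] (σ : Gal(Om/ℚ)), (∀ x ∈ F, σ x ∈ F) →
    ∀ X : Set (HeightOneSpectrum (𝓞 F)), ZD.Dn F X 0 →
    ZD.Dn F {v | ∃ (P : Ideal ZZ) (v' : HeightOneSpectrum (𝓞 F)), Ab F P v ∧
      Ab F (σ • P) v' ∧ v' ∈ X} 0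

/-- **TDis** (120 lines). USES: nothing. Different conjugates of a prime of degree one are different, up to finitely many primes.
PROOF. It is enough to treat one pair `σ ≠ τ` in `R` (finite union). By hypothesis there is `x ∈ F` with `σ x ≠ τ x`; multiply by a nonzero integer: `x ∈ 𝓞 F`. `δ = τ⁻¹ (σ x) - x`, with
`τ⁻¹ (σ x) ∈ F` (`τ F = F`: `τ` restricted to `F` is injective, `F` is finite dimensional, so surjective onto `F`), `δ ∈ 𝓞 F`, `δ ≠ 0`. Let `B = {v | δ ∈ v.asIdeal}`, finite (`ZD.finite_mem`). Let `v ∉ B`, `nm v = l` a prime number, `P` above `v` and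
suppose `(σ • P) ∩ F = (τ • P) ∩ F`. As `𝓞 F ⧸ v` has `l` elements, `l` prime, there is an integer `n` with `x - n ∈ v` (the image of `ℤ` in `𝓞 F ⧸ v` is everything), so `x - n ∈ P` (in `ZZ`), `σ x - n ∈ σ • P` and
`σ x ∈ F`, so `σ x - n ∈ (σ • P) ∩ F = (τ • P) ∩ F`, `τ⁻¹ σ x - n ∈ P`, and `δ = (τ⁻¹ σ x - n) - (x - n) ∈ P ∩ F = v`: contradiction. -/
def S_TDis : Prop :=
  ∀ (F : IntermediateField ℚ Om) [NumberField F] (R : Finset Gal(Om/ℚ)),
    (∀ σ ∈ R, ∀ x ∈ F, σ x ∈ F) →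
    (∀ σ ∈ R, ∀ τ ∈ R, (∀ x ∈ F, σ x = τ x) → σ = τ) →
    ∃ B : Set (HeightOneSpectrum (𝓞 F)), B.Finite ∧ ∀ v ∉ B, (ZD.nm v).Prime →
      ∀ P : Ideal ZZ, Ab F P v → ∀ σ ∈ R, ∀ τ ∈ R,
        (σ • P).comap (iO F) = (τ • P).comap (iO F) → σ = τ

/-! ## Kummer characters -/

/-- **TKa** (120 lines). USES: nothing. The Kummer characters `kap w`.
PROOF. Let `x = sqr w`, `x ^ 2 = w`, `x ≠ 0`. If `d w = w` then `(d x) ^ 2 = x ^ 2`, `d x = x` or `d x = -x`, and `-x ≠ x`. (1) For `d`, `e` with `d w = w`, `e w = w`: check the four cases.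
(2) If `y ^ 2 = w` then `y = x` or `y = -x`, and `d y = y` iff `d x = x`. (3) `y = σ⁻¹ x` satisfies `y ^ 2 = σ⁻¹ w` and `d y = y` iff `(σ d σ⁻¹) x = x`; use (2) for `σ⁻¹ w`. (4) By (1), and continuity: the function vanishes on the
fixing subgroup of `ℚ(x)`, which is open (`IntermediateField.fixingSubgroup_isOpen`, `ℚ(x)` finite dimensional: `IntermediateField.adjoin.finiteDimensional`, `x` is integral over `ℚ`). -/
def S_TKa : Prop :=
  (∀ (w : Om) (d e : Gal(Om/ℚ)), w ≠ 0 → d w = w → e w = w → kap w (d * e) = kap w d + kap w e) ∧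
  (∀ (w y : Om) (d : Gal(Om/ℚ)), w ≠ 0 → y ^ 2 = w → d w = w →
    ((kap w d = 0 ∧ d y = y) ∨ (kap w d = 1 ∧ d y = -y))) ∧
  (∀ (w : Om) (σ d : Gal(Om/ℚ)), w ≠ 0 → kap (σ⁻¹ w) d = kap w (σ * d * σ⁻¹)) ∧
  ∀ (F : IntermediateField ℚ Om) (w : Om), w ∈ F → w ≠ 0 →
    (open Classical in fun d => if d ∈ F.fixingSubgroup then kap w d else 0) ∈
      VV 2 ∅ F.fixingSubgroup

/-! ## The quadratic relation -/

/-- The output of Thaine's construction (part H3, H4, note 4054) at the prime `Q`: an element `k` whose valuation is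
even outside of the conjugates `σ Q`, and equal to `kap (σ⁻¹ u) φ` modulo 2 at `σ Q`. -/
structure KK (F : IntermediateField ℚ Om) [NumberField F] (R : Finset Gal(Om/ℚ)) (u : Om)
    (Q : Ideal ZZ) (φ : Gal(Om/ℚ)) (k : F) : Prop where
  ne : k ≠ 0
  ev : ∀ (v : HeightOneSpectrum (𝓞 F)) (Q' : Ideal ZZ), Ab F Q' v → (2 : ZZ) ∉ Q' →
    (∀ σ ∈ R, ¬ Ab F (σ • Q) v) → Even (vl F v k)
  od : ∀ v : HeightOneSpectrum (𝓞 F), ∀ σ ∈ R, Ab F (σ • Q) v →
    ((vl F v k : ℤ) : ZMod 2) = kap (σ⁻¹ u) φ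

/-- The hypothesis on the unit `u`: Thaine's elements exist for all primes `Q` of degree one over `ℚ`, of norm `1` modulo 4, prime to `M`. -/
def Thn (F : IntermediateField ℚ Om) [NumberField F] (R : Finset Gal(Om/ℚ)) (u : Om) (M : ℕ) : Prop :=
  ∀ (Q : Ideal ZZ) (φ : Gal(Om/ℚ)), Q.IsPrime → Q ≠ ⊥ → (M : ZZ) ∉ Q →
    (Nat.card (𝓞 F ⧸ Q.comap (iO F))).Prime → Nat.card (𝓞 F ⧸ Q.comap (iO F)) % 4 = 1 →
    IsFr F Q φ → ∃ k : F, KK F R u Q φ k

/-- **TRel** (120 lines). USES: nothing. The sum over the conjugates of `Q`.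
PROOF. `0 = ∑ᶠ v, (vl F v k : ZMod 2) * a v` (`ClCh` for `x = k`). For `σ ∈ R` let `w σ` be the prime of `F` with `Ab F (σ • Q) (w σ)` (`tLie.2.1`; `σ • Q` is a prime ideal `≠ ⊥`); `w` is injective on `R` by
`hd` (`(w σ).asIdeal = (σ • Q).comap (iO F)`). Terms with `v ∉ w '' R` vanish: if `2 ∈ v` then `a v = 0`; otherwise choose `Q'` above `v` (`tLie.1`), `2 ∉ Q'` (the preimage of `Q'` is `v`), `Even (vl F v k)` by `KK.ev`, so
`(vl F v k : ZMod 2) = 0`. So the finsum is `∑ σ ∈ R, (vl F (w σ) k : ZMod 2) * a (w σ)` (`finsum_eq_sum_of_support_subset` with the finset `R.image w`, `Finset.sum_image`) `= ∑ σ ∈ R, kap (σ⁻¹ u) φ * a (w σ)` by `KK.od`.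
`a (w σ) = g (σ * φ * σ⁻¹)` by `ha`, since `σ * φ * σ⁻¹` is a Frobenius element at `σ • Q` over `F`: `σ F = F`, so `σ * φ * σ⁻¹ ∈ F.fixingSubgroup`, and for `x ∈ ZZ`: `(σ φ σ⁻¹) • x - x ^ q' = σ • (φ • y - y ^ q')`, `y = σ⁻¹ • x`, with
`q' = Nat.card (𝓞 F ⧸ (σ • Q) ∩ F) = Nat.card (𝓞 F ⧸ Q ∩ F)` (the automorphism of `𝓞 F` induced by `σ` maps `Q ∩ F` onto `(σ • Q) ∩ F`). -/
def S_TRel : Prop :=
  ∀ (F : IntermediateField ℚ Om) [NumberField F] (R : Finset Gal(Om/ℚ)) (u : Om) (Q : Ideal ZZ)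
    (φ : Gal(Om/ℚ)) (k : F) (g : Gal(Om/ℚ) → ZMod 2) (a : HeightOneSpectrum (𝓞 F) → ZMod 2),
    (∀ σ ∈ R, ∀ x ∈ F, σ x ∈ F) → Q.IsPrime → Q ≠ ⊥ → IsFr F Q φ → KK F R u Q φ k →
    (∀ σ ∈ R, ∀ τ ∈ R, (σ • Q).comap (iO F) = (τ • Q).comap (iO F) → σ = τ) →
    ClCh 2 F a → (∀ v : HeightOneSpectrum (𝓞 F), (2 : 𝓞 F) ∈ v.asIdeal → a v = 0) →
    (∀ σ ∈ R, ∀ (v : HeightOneSpectrum (𝓞 F)) (ψ : Gal(Om/ℚ)), Ab F (σ • Q) v →
      IsFr F (σ • Q) ψ → a v = g ψ) →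
    ∑ σ ∈ R, kap (σ⁻¹ u) φ * g (σ * φ * σ⁻¹) = 0

/-- **TQu** (200 lines). USES: `S_TBad`, `S_TSel`, `S_TCj`, `S_TDis`, `S_TKa`, `S_TRel`. The quadratic relation (H1, H2).
PROOF. `a` from `S_TBad`, `X₀` the set of density zero there. Let `X` be the union of: for `σ ∈ R` the set of `S_TCj` for `X₀`; the finite set `B` of `S_TDis`; the finite set of the `v` with `2 * M ∈ v` (`ZD.finite_mem`, `2 * M ≠ 0`). `Dn F X 0`
(`ZD.Dn.union_zero`, finite induction over `R`). Characters for `S_TSel`, all in `VV 2 ∅ F.fixingSubgroup`, index type e.g. `Option (R ⊕ R)` or `Sum`: (i) `τ ↦ g (σ * τ * σ⁻¹)` for `σ ∈ R` (for `τ ∈ F.fixingSubgroup`, which `σ` normalises as `σ F = F`; `0` outside;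
continuity: conjugation is continuous, see `MuZ` `S_Conj` and the proofs there, or take `O` open normal inside the open subgroup); (ii) `kap (σ⁻¹ u)`, `σ ∈ R` (`σ⁻¹ u ∈ F`, `S_TKa` (4)); (iii) `kap (-1)`. `S_TSel` for `φ₀`
gives `v ∉ X`, `l = nm v` prime. Choose `Q` above `v` (`tLie.1`) and a Frobenius element `φ` (`tFrE`). `kap (-1) φ = kap (-1) φ₀ = 0` since `φ₀ i = i` (`S_TKa` (2)), so `φ i = i`. `l % 4 = 1`: `l` is odd as `2 ∉ v`; `φ i - i ^ l ∈ Q` (`i` as an element of `ZZ`), so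
if `l % 4 = 3` then `i ^ l = -i` and `2 i ∈ Q`, `2 ∈ Q` (`i` is a unit), `2 ∈ v`: contradiction. `Thn` gives `k` (`(M : ZZ) ∉ Q`; `Nat.card (𝓞 F ⧸ Q.comap (iO F)) = nm v`). The hypotheses of `S_TRel`: distinctness by `S_TDis`; `a v' = g ψ` for `Ab F (σ • Q) v'`, `IsFr F (σ • Q) ψ`: otherwise
`v' ∈ X₀` and `v ∈ X`. So `∑ kap (σ⁻¹ u) φ * g (σ φ σ⁻¹) = 0`, and all values agree with those at `φ₀`. -/
def S_TQu : Prop :=
  ∀ (F : IntermediateField ℚ Om) [NumberField F] [IsTotallyComplex F] (R : Finset Gal(Om/ℚ))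
    (u i : Om) (M : ℕ), (∀ σ ∈ R, ∀ x ∈ F, σ x ∈ F) →
    (∀ σ ∈ R, ∀ τ ∈ R, (∀ x ∈ F, σ x = τ x) → σ = τ) → u ∈ F → u ≠ 0 → i ^ 2 = -1 → M ≠ 0 →
    Thn F R u M → ∀ g ∈ VV 2 (Loc 2) F.fixingSubgroup, ∀ φ₀ ∈ F.fixingSubgroup, φ₀ i = i →
      ∑ σ ∈ R, kap (σ⁻¹ u) φ₀ * g (σ * φ₀ * σ⁻¹) = 0

/-- **TH** (120 lines). USES: `S_TQu`, `S_TKa`. THEOREM H, abstract form.
PROOF. (1) Let first `τ i = i`. `S_TQu` for `φ₀ = d * τ` and for `φ₀ = τ`: with `kap (σ⁻¹ u) (d * τ) = kap (σ⁻¹ u) d + kap (σ⁻¹ u) τ` (`S_TKa` (1); `d`, `τ` fix `σ⁻¹ u ∈ F`) and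
`g (σ * (d * τ) * σ⁻¹) = g (σ d σ⁻¹) + g (σ τ σ⁻¹) = g (σ τ σ⁻¹)`, because `σ d σ⁻¹` is in the stabiliser of `σ • P`, which contains `2`, and in `F.fixingSubgroup` (`σ F = F`), so `g` vanishes there (`Loc 2`, second kind). Subtract.
(2) General `τ`: `τ i = i` or `τ i = -i` (`i ^ 2 = -1`). In the second case `ρ i = -i` for the element `ρ` of the hypothesis, so `τ ρ` fixes `i`, and `g (σ (τ ρ) σ⁻¹) = g (σ τ σ⁻¹) + g (σ ρ σ⁻¹) = g (σ τ σ⁻¹)`, since `σ ρ σ⁻¹ ∈ (σ • P').inertia`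
(`Loc 2`, first kind; for the conjugation of inertia groups see `MuZ/Conj.lean`). Apply (1) to `τ ρ`. -/
def S_TH : Prop :=
  ∀ (F : IntermediateField ℚ Om) [NumberField F] [IsTotallyComplex F] (R : Finset Gal(Om/ℚ))
    (u i : Om) (M : ℕ), (∀ σ ∈ R, ∀ x ∈ F, σ x ∈ F) →
    (∀ σ ∈ R, ∀ τ ∈ R, (∀ x ∈ F, σ x = τ x) → σ = τ) → u ∈ F → u ≠ 0 → i ^ 2 = -1 →
    (∃ P' : Ideal ZZ, P'.IsPrime ∧ P' ≠ ⊥ ∧ ∃ ρ ∈ P'.inertia Gal(Om/ℚ), ρ ∈ F.fixingSubgroup ∧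
      ρ i ≠ i) → M ≠ 0 → Thn F R u M →
    ∀ g ∈ VV 2 (Loc 2) F.fixingSubgroup, ∀ P : Ideal ZZ, P.IsPrime → (2 : ZZ) ∈ P →
      ∀ d ∈ MulAction.stabilizer Gal(Om/ℚ) P, d ∈ F.fixingSubgroup → d i = i →
      ∀ τ ∈ F.fixingSubgroup, ∑ σ ∈ R, kap (σ⁻¹ u) d * g (σ * τ * σ⁻¹) = 0

end Pool.Agent.DI
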