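import Pool.Agent.Lib.DI.T.SpecT

/-!
# Theorem DI, part T, module TFl: the field of a quadratic character
-/

set_option autoImplicit false

open scoped Pointwise nonZeroDivisors

noncomputable section

namespace Pool.Agent.DI

open Pool.Agent.MuZ Pool.Agent.FW NumberField IsDedekindDomain

private theorem TFl_isGalois : IsGalois ℚ Om := by
  have h : @IsGalois ℚ _ Om _ (AlgebraicClosure.instAlgebra ℚ) :=
    @IsAlgClosure.isGalois ℚ Om _ _ (AlgebraicClosure.instAlgebra ℚ) _ _
  have hA : (DivisionRing.toRatAlgebra : Algebra ℚ Om) = AlgebraicClosure.instAlgebra ℚ :=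
    Subsingleton.elim _ _
  rw [hA]
  exact h

private theorem TFl_fin (M N : IntermediateField ℚ Om) (hN : FiniteDimensional ℚ N)
    (h : M ≤ N) : FiniteDimensional ℚ M :=
  FiniteDimensional.of_injective (IntermediateField.inclusion h).toLinearMap
    (IntermediateField.inclusion_injective h)

/-- The field of the character. -/
private theorem TFl_fld (L : IntermediateField ℚ Om) [NumberField L] (f : Gal(Om/ℚ) → ZMod 2)
    (hf : f ∈ VV 2 ∅ L.fixingSubgroup) : ∃ M : IntermediateField ℚ Om, L ≤ M ∧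
      FiniteDimensional ℚ M ∧ (∀ σ ∈ L.fixingSubgroup, ∀ x ∈ M, σ x ∈ M) ∧
      ∀ σ : Gal(Om/ℚ), σ ∈ M.fixingSubgroup ↔ σ ∈ L.fixingSubgroup ∧ f σ = 0 := by
  have hGal : IsGalois ℚ Om := TFl_isGalois
  obtain ⟨-, h1, ⟨O, hO⟩, h4⟩ := hf
  have f1 : f 1 = 0 := by
    have h := h1 1 (one_mem _) 1 (one_mem _)
    rw [mul_one] at h
    simpa using h
  have finv : ∀ g ∈ L.fixingSubgroup, f g⁻¹ = - f g := by
    intro g hg
    have h := h1 g hg g⁻¹ (inv_mem hg)
    rw [mul_inv_cancel, f1] at h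
    exact (neg_eq_of_add_eq_zero_right h.symm).symm
  obtain ⟨W, hW⟩ : ∃ W : Subgroup Gal(Om/ℚ), ∀ σ, σ ∈ W ↔ σ ∈ L.fixingSubgroup ∧ f σ = 0 := by
    refine ⟨{ carrier := {σ | σ ∈ L.fixingSubgroup ∧ f σ = 0}, mul_mem' := ?_, one_mem' := ?_, inv_mem' := ?_ },
      fun σ => Iff.rfl⟩
    · rintro a b ⟨a1, a2⟩ ⟨b1, b2⟩
      exact ⟨mul_mem a1 b1, by rw [h1 a a1 b b1, a2, b2, add_zero]⟩
    · exact ⟨one_mem _, f1⟩
    · rintro a ⟨a1, a2⟩
      exact ⟨inv_mem a1, by rw [finv a a1, a2, neg_zero]⟩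
  have hclosed : IsClosed (W : Set Gal(Om/ℚ)) := by
    rw [← isOpen_compl_iff, isOpen_iff_mem_nhds]
    intro σ hσ
    by_cases hL : σ ∈ L.fixingSubgroup
    · have hnhds : (fun x => σ⁻¹ * x) ⁻¹' (O : Set Gal(Om/ℚ)) ∈ nhds σ := by
        refine (continuous_const_mul σ⁻¹).continuousAt.preimage_mem_nhds ?_
        rw [inv_mul_cancel]
        exact O.mem_nhds_one
      refine Filter.mem_of_superset hnhds ?_
      intro x hx hxW
      have hxO : σ⁻¹ * x ∈ O := hx
      obtain ⟨x1, x2⟩ := (hW x).1 hxW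
      have h5 : f (σ⁻¹ * x) = 0 := hO _ (mul_mem (inv_mem hL) x1) hxO
      rw [h1 _ (inv_mem hL) _ x1, x2, add_zero, finv σ hL] at h5
      exact hσ ((hW σ).2 ⟨hL, neg_eq_zero.1 h5⟩)
    · have hcl : IsClosed (L.fixingSubgroup : Set Gal(Om/ℚ)) :=
        InfiniteGalois.fixingSubgroup_isClosed L
      refine Filter.mem_of_superset (hcl.isOpen_compl.mem_nhds hL) ?_
      intro x hx hxW
      exact hx ((hW x).1 hxW).1
  have hM : (IntermediateField.fixedField W).fixingSubgroup = W :=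
    InfiniteGalois.fixingSubgroup_fixedField (k := ℚ) (K := Om) ⟨W, hclosed⟩
  have hfix : ∀ σ ∈ W, ∀ x ∈ IntermediateField.fixedField W, σ x = x := by
    intro σ hσ x hx
    exact (IntermediateField.mem_fixedField_iff W x).1 hx σ hσ
  refine ⟨IntermediateField.fixedField W, ?_, ?_, ?_, fun σ => by rw [hM, hW]⟩
  · intro x hx
    rw [IntermediateField.mem_fixedField_iff]
    intro σ hσ
    exact (IntermediateField.mem_fixingSubgroup_iff L σ).1 ((hW σ).1 hσ).1 x hx
  · obtain ⟨E, hE, hEO⟩ := (krullTopology_mem_nhds_one_iff ℚ Om (O : Set Gal(Om/ℚ))).1 O.mem_nhds_one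
    have hLE : FiniteDimensional ℚ (L ⊔ E : IntermediateField ℚ Om) := by
      have h5 : FiniteDimensional ℚ L := inferInstance
      exact IntermediateField.finiteDimensional_sup L E
    refine TFl_fin _ _ hLE ?_
    intro x hx
    rw [← InfiniteGalois.fixedField_fixingSubgroup (L ⊔ E), IntermediateField.mem_fixedField_iff]
    intro σ hσ
    have e1 : σ ∈ L.fixingSubgroup := IntermediateField.fixingSubgroup_antitone (le_sup_left : L ≤ L ⊔ E) hσ
    have e2 : σ ∈ E.fixingSubgroup := IntermediateField.fixingSubgroup_antitone (le_sup_right : E ≤ L ⊔ E) hσ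
    exact hfix σ ((hW σ).2 ⟨e1, hO σ e1 (hEO e2)⟩) x hx
  · intro σ hσ x hx
    rw [IntermediateField.mem_fixedField_iff]
    intro τ hτ
    obtain ⟨t1, t2⟩ := (hW τ).1 hτ
    have hmem : σ⁻¹ * τ * σ ∈ W := by
      refine (hW _).2 ⟨mul_mem (mul_mem (inv_mem hσ) t1) hσ, ?_⟩
      rw [h1 _ (mul_mem (inv_mem hσ) t1) _ hσ, h1 _ (inv_mem hσ) _ t1, t2, finv σ hσ]
      ring
    have h5 := hfix _ hmem x hx
    have h6 : τ (σ x) = σ ((σ⁻¹ * τ * σ) x) := by
      rw [← AlgEquiv.mul_apply, ← AlgEquiv.mul_apply]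
      congr 1
      group
    rw [h6, h5]

/-- Two elements which act modulo `P` as the same power differ by an element of the inertia group. -/
private theorem TFl_ker (P : Ideal ZZ) (hP : P.IsPrime) (a b : Gal(Om/ℚ)) (N : ℕ)
    (ha : ∀ x : ZZ, a • x - x ^ N ∈ P) (hb : ∀ x : ZZ, b • x - x ^ N ∈ P) :
    b⁻¹ * a ∈ P.inertia Gal(Om/ℚ) := by
  rw [AddSubgroup.mem_inertia]
  intro x
  have h1 : a • x - b • x ∈ P := by
    have h2 := P.sub_mem (ha x) (hb x)
    rwa [sub_sub_sub_cancel_right] at h2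
  have h3 : (b⁻¹ * a) • x - x = b⁻¹ • (a • x - b • x) := by
    rw [smul_sub, inv_smul_smul, mul_smul]
  rw [h3]
  have h4 := hb (b⁻¹ • (a • x - b • x))
  rw [smul_inv_smul] at h4
  have h5 := P.sub_mem h1 h4
  rw [sub_sub_cancel] at h5
  exact hP.mem_of_pow_mem N h5

private theorem TFl_two (x : ZMod 2) (hx : x ≠ 0) : x = 1 := by
  revert x
  decide

theorem tTFl : S_TFl := by
  intro K hK h hh hne
  obtain ⟨M, hKM, hMfin, hMst, hker⟩ := TFl_fld K h hh
  have hNFM : NumberField M := { to_charZero := inferInstance, to_finiteDimensional := hMfin }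
  obtain ⟨hg1, hg2, -, -⟩ := hh
  have h1 : h 1 = 0 := by
    have h1 := hg2 1 K.fixingSubgroup.one_mem 1 K.fixingSubgroup.one_mem
    rw [mul_one] at h1
    exact left_eq_add.1 h1
  have hinv : ∀ g ∈ K.fixingSubgroup, h g⁻¹ = - h g := by
    intro g hg
    have h2 := hg2 g hg g⁻¹ (inv_mem hg)
    rw [mul_inv_cancel, h1] at h2
    exact (neg_eq_of_add_eq_zero_right h2.symm).symm
  obtain ⟨s, hs⟩ : ∃ s, h s ≠ 0 := by
    by_contra hc
    push Not at hc
    exact hne (funext hc)
  have hsK : s ∈ K.fixingSubgroup := by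
    by_contra hc
    exact hs (hg1 s hc)
  have hs1 : h s = 1 := TFl_two _ hs
  have : Normal K Om := Normal.tower_top_of_normal ℚ K Om
  have : IsGalois K Om := ⟨⟩
  let L : IntermediateField K Om := IntermediateField.extendScalars hKM
  have hL : ∀ x : Om, x ∈ L ↔ x ∈ M := fun x => IntermediateField.mem_extendScalars hKM
  have hres : ∀ σ : Gal(Om/K), (σ.restrictScalars ℚ : Gal(Om/ℚ)) ∈ K.fixingSubgroup := by
    intro σ
    rw [IntermediateField.mem_fixingSubgroup_iff]
    intro x hx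
    exact σ.commutes ⟨x, hx⟩
  have hNorm : Normal K L := by
    rw [IntermediateField.normal_iff_forall_map_le']
    rintro σ x ⟨y, hy, rfl⟩
    exact (hL _).2 (hMst _ (hres σ) _ ((hL y).1 hy))
  have hGal : IsGalois K L := ⟨⟩
  have hdeg : Module.finrank K L = 2 := by
    rw [IntermediateField.finrank_eq_fixingSubgroup_index Om L]
    let φ : Gal(Om/K) →* Multiplicative (ZMod 2) :=
      { toFun := fun σ => Multiplicative.ofAdd (h (σ.restrictScalars ℚ))
        map_one' := congrArg Multiplicative.ofAdd h1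
        map_mul' := fun σ τ => congrArg Multiplicative.ofAdd (hg2 _ (hres σ) _ (hres τ)) }
    have hφ : φ.ker = L.fixingSubgroup := by
      ext σ
      rw [MonoidHom.mem_ker, IntermediateField.mem_fixingSubgroup_iff]
      have h1 : (φ σ = 1) ↔ h (σ.restrictScalars ℚ) = 0 := Iff.rfl
      rw [h1]
      have h2 := hker (σ.restrictScalars ℚ)
      rw [IntermediateField.mem_fixingSubgroup_iff] at h2
      constructor
      · intro h x hx
        exact h2.2 ⟨hres σ, h⟩ x ((hL x).1 hx)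
      · intro h
        exact (h2.1 fun x hx => h x ((hL x).2 hx)).2
    have hcard : Nat.card (Multiplicative (ZMod 2)) = 2 := by
      rw [Nat.card_congr Multiplicative.toAdd, Nat.card_zmod]
    have hsur : Function.Surjective φ := by
      intro y
      by_cases hy : Multiplicative.toAdd y = 0
      · refine ⟨1, ?_⟩
        rw [map_one]
        exact congrArg Multiplicative.ofAdd hy.symm
      · have hy1 := TFl_two _ hy
        have hsx : ∀ x ∈ K, s x = x := (IntermediateField.mem_fixingSubgroup_iff K s).1 hsK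
        let s' : Gal(Om/K) := { s with commutes' := fun x => hsx x x.2 }
        refine ⟨s', ?_⟩
        have e1 : s'.restrictScalars ℚ = s := by
          ext x
          rfl
        have e2 : φ s' = Multiplicative.ofAdd (h s) := by
          rw [← e1]
          rfl
        rw [e2, hs1, ← hy1]
        rfl
    rw [← hφ, Subgroup.index_ker, MonoidHom.range_eq_top.2 hsur, Subgroup.card_top, hcard]
  let algKM : Algebra K M := (IntermediateField.inclusion hKM).toRingHom.toAlgebra
  let e : L ≃ₐ[K] M :=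
    { toFun := fun x => ⟨(x : Om), (hL _).1 x.2⟩
      invFun := fun x => ⟨(x : Om), (hL _).2 x.2⟩
      left_inv := fun _ => rfl
      right_inv := fun _ => rfl
      map_mul' := fun _ _ => rfl
      map_add' := fun _ _ => rfl
      commutes' := fun _ => rfl }
  have hGKM : IsGalois K M := IsGalois.of_algEquiv e
  -- an algebraic integer which is moved by `s`
  obtain ⟨θ, hθ⟩ : ∃ θ : 𝓞 M, s ((θ : M) : Om) ≠ ((θ : M) : Om) := by
    by_contra hc
    push Not at hc
    refine hs ((hker s).1 ?_).2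
    rw [IntermediateField.mem_fixingSubgroup_iff]
    intro x hx
    obtain ⟨a, b, -, hab⟩ := IsFractionRing.div_surjective (A := 𝓞 M) (⟨x, hx⟩ : M)
    have h2 : x = ((a : M) : Om) / ((b : M) : Om) := by
      have h3 := congrArg (fun y : M => (y : Om)) hab
      exact h3.symm
    rw [h2, map_div₀, hc a, hc b]
  have hsM : s ((θ : M) : Om) ∈ M := hMst s hsK _ (θ : M).2
  have hsθ : IsIntegral ℤ (⟨s ((θ : M) : Om), hsM⟩ : M) := by
    rw [← isIntegral_algebraMap_iff (B := Om)
      (show Function.Injective (algebraMap M Om) from Subtype.val_injective)]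
    have h2 : IsIntegral ℤ ((θ : M) : Om) := (iO M θ).2
    exact h2.map (s.toAlgHom.restrictScalars ℤ)
  let θ' : 𝓞 M := ⟨⟨s ((θ : M) : Om), hsM⟩, hsθ⟩
  have hδ : θ' - θ ≠ 0 := by
    intro h2
    have h3 : θ' = θ := sub_eq_zero.1 h2
    exact hθ (congrArg (fun y : 𝓞 M => ((y : M) : Om)) h3)
  have hact : ∀ ρ ∈ K.fixingSubgroup, h ρ ≠ 0 → ρ • iO M θ = iO M θ' := by
    intro ρ hρ hρ0
    have h2 : s⁻¹ * ρ ∈ M.fixingSubgroup := by
      refine (hker _).2 ⟨mul_mem (inv_mem hsK) hρ, ?_⟩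
      rw [hg2 _ (inv_mem hsK) _ hρ, hinv _ hsK, hs1, TFl_two _ hρ0]
      rfl
    have h3 : (s⁻¹ * ρ) ((θ : M) : Om) = ((θ : M) : Om) :=
      (IntermediateField.mem_fixingSubgroup_iff M _).1 h2 _ (θ : M).2
    have h4 : ρ ((θ : M) : Om) = s ((θ : M) : Om) := by
      have h5 : ρ = s * (s⁻¹ * ρ) := by group
      rw [h5, AlgEquiv.mul_apply, h3]
    exact Subtype.ext h4
  refine ⟨M, inferInstance, hNFM, algKM, hGKM, ?_,
    {v | ∃ w ∈ ZD.abv M v, w.asIdeal ∣ differentIdeal (𝓞 K) (𝓞 M)} ∪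
      {v | ∃ w ∈ ZD.abv M v, θ' - θ ∈ w.asIdeal}, ?_, ?_⟩
  · rw [← e.toLinearEquiv.finrank_eq]
    exact hdeg
  · refine Set.Finite.union ZD.finite_ram ?_
    refine ((ZD.finite_mem (θ' - θ) hδ).image fun w => w.under (𝓞 K)).subset ?_
    rintro v ⟨w, hw, hd⟩
    exact ⟨w, hd, hw⟩
  · intro v hv P σ hPv hσ
    obtain ⟨hP, hP0, hvc⟩ := hPv
    obtain ⟨hσK, hσ2⟩ := hσ
    obtain ⟨w, -, -, hwc⟩ := tLie.2.1 M P hP hP0
    have hw : w ∈ ZD.abv M v := by
      rw [ZD.mem_abv, hwc, hvc, Ideal.comap_comap]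
      rfl
    have hNv : Nat.card (𝓞 K ⧸ P.comap (iO K)) = ZD.nm v := by
      rw [← hvc]
      rfl
    have hNw : Nat.card (𝓞 M ⧸ P.comap (iO M)) = ZD.nm w := by
      rw [← hwc]
      rfl
    constructor
    · intro h0
      have hσM : σ ∈ M.fixingSubgroup := (hker σ).2 ⟨hσK, h0⟩
      refine ZD.mem_Spl_of_nm (fun hc => hv (Or.inl hc)) hw ?_
      refine ZD.nm_le_of_pow w (lt_of_lt_of_le one_lt_two (ZD.two_le_nm v)) fun x => ?_
      have h2 := hσ2 (iO M x)
      have h3 : σ • iO M x = iO M x := by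
        refine Subtype.ext ?_
        exact (IntermediateField.mem_fixingSubgroup_iff M _).1 hσM _ (x : M).2
      rw [h3, hNv] at h2
      rw [hwc, Ideal.mem_comap, map_sub, map_pow]
      have h4 := P.neg_mem h2
      rwa [neg_sub] at h4
    · intro hsp
      obtain ⟨τ, hτM, hτ⟩ := tFrE M P hP hP0
      have hτ' := (hker τ).1 hτM
      have hnm := ZD.nm_eq_of_mem_Spl hsp hw
      rw [hNw, hnm, ← hNv] at hτ
      have hρ := TFl_ker P hP σ τ _ hσ2 hτ
      have hρK : τ⁻¹ * σ ∈ K.fixingSubgroup := mul_mem (inv_mem hτ'.1) hσK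
      have hρ0 : h (τ⁻¹ * σ) = 0 := by
        by_contra hc
        refine hv (Or.inr ⟨w, hw, ?_⟩)
        rw [AddSubgroup.mem_inertia] at hρ
        have h2 := hρ (iO M θ)
        rw [hact _ hρK hc, ← map_sub] at h2
        rw [hwc]
        exact h2
      have h3 : h σ = h τ + h (τ⁻¹ * σ) := by
        rw [← hg2 τ hτ'.1 _ hρK, mul_inv_cancel_left]
      rw [h3, hρ0, hτ'.2, add_zero]

end Pool.Agent.DI
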